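import Mathlib
import Pool.Agent.Y137.MV.Defs

/-!
# Zariski closures, large monodromy and cocharacters: definitions
-/

namespace Pool.Agent.K6.H94.CO

open Module
open Pool.Agent.Y137.MV (IsTateForm)

/-- The polynomial functions on a vector space: the algebra of functions generated by the linear
forms. -/
def polyFun (K X : Type*) [Field K] [AddCommGroup X] [Module K X] : Subalgebra K (X → K) :=
  Algebra.adjoin K {f | ∃ l : X →ₗ[K] K, f = l}

/-- The point `x` belongs to the Zariski closure of the set `S`: each polynomial function which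
vanishes on `S` vanishes at `x`. -/
def InClosure (K : Type*) {X : Type*} [Field K] [AddCommGroup X] [Module K X] (S : Set X)
    (x : X) : Prop :=
  ∀ f ∈ polyFun K X, (∀ y ∈ S, f y = 0) → f x = 0

variable {K : Type*} [Field K] {V : Type*} [AddCommGroup V] [Module K V]
  {M : Type*} [AddCommGroup M] [Module K M] {Γ : Type*} [Group Γ]

/-- For each subgroup of finite index the Zariski closure of its image contains the transvections
`x ↦ x + ω (v, x) v`, for all `v` in the subspaces `W i`. -/
def IsLarge (ρ : Representation K Γ V) (ω : V →ₗ[K] V →ₗ[K] K) {ι : Type*}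
    (W : ι → Submodule K V) : Prop :=
  ∀ Δ : Subgroup Γ, Δ.FiniteIndex → ∀ i, ∀ v ∈ W i,
    InClosure K {g : End K V | ∃ s ∈ Δ, g = ρ s} (1 + (ω v).smulRight v)

/-- For each subgroup of finite index the Zariski closure of its image in the endomorphisms of
`V × M` contains the elements `μ (t)`, `t ≠ 0`, which act on `V` by `t ^ N` on the range of the
idempotent `e` and by `1` on its kernel (both are not zero), and on `M` by `t ^ (a + j)`,
`0 ≤ j < n N`, on the range of the idempotent `P j`: a cocharacter with the weights `0` and `1` on `V`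
and with weights in the interval `[a / N, a / N + n)` on `M`. -/
def HasCocharacter (ρ : Representation K Γ V) (τ : Representation K Γ M) (n : ℕ) : Prop :=
  ∃ (N : ℕ) (e : End K V) (a : ℤ) (P : Fin (n * N) → End K M),
    0 < N ∧ e * e = e ∧ e ≠ 0 ∧ e ≠ 1 ∧
    ∑ j, P j = 1 ∧ (∀ j, P j * P j = P j) ∧ (∀ i j, i ≠ j → P i * P j = 0) ∧
    ∀ Δ : Subgroup Γ, Δ.FiniteIndex → ∀ t : K, t ≠ 0 →
      InClosure K {x : End K V × End K M | ∃ s ∈ Δ, x = (ρ s, τ s)}
        (1 + (t ^ N - 1) • e, ∑ j : Fin (n * N), t ^ (a + ((j : ℕ) : ℤ)) • P j)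

/-- The alternating map `g` on `V ^ r` is equivariant under some subgroup of finite index, up to the
`m`-th power of the character `χ`. -/
def IsTwisted (ρ : Representation K Γ V) (τ : Representation K Γ M) (χ : Γ →* K) (m : ℕ)
    {κ : Type*} {r : ℕ} (g : (Fin r → V) [⋀^κ]→ₗ[K] M) : Prop :=
  ∃ Δ : Subgroup Γ, Δ.FiniteIndex ∧ ∀ s ∈ Δ, ∀ v : κ → Fin r → V,
    τ s (g v) = χ s ^ m • g (fun l i => ρ s (v l i))

/-- The span of the products `B 0 ∧ ... ∧ B (m - 1) ∧ p^* ψ`, where the `B l` are alternating forms of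
degree two on `V ^ r` on which a subgroup of finite index acts through `χ`, `p : V ^ r → V ^ a` is
a coordinate map `(x_1, ..., x_r) ↦ (x_(c 1), ..., x_(c a))`, and `ψ` is an alternating map of degree
`a < n` on `V ^ a` which is equivariant under a subgroup of finite index up to `χ ^ m`. -/
def Products (ρ : Representation K Γ V) (τ : Representation K Γ M) (χ : Γ →* K) (n r N : ℕ) :
    Submodule K ((Fin r → V) [⋀^Fin N]→ₗ[K] M) :=
  Submodule.span K {g | ∃ (m a : ℕ) (f : (Fin m × Fin 2) ⊕ Fin a ≃ Fin N)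
    (B : Fin m → (Fin r → V) [⋀^Fin 2]→ₗ[K] K) (ψ : (Fin a → V) [⋀^Fin a]→ₗ[K] M)
    (c : Fin a → Fin r), a < n ∧ (∀ l, IsTateForm ρ χ (B l)) ∧ IsTwisted ρ τ χ m ψ ∧
    ∀ v, g v = ∑ σ : Equiv.Perm (Fin N), ((Equiv.Perm.sign σ : ℤ) : K) •
      (∏ l, B l ![v (σ (f (Sum.inl (l, 0)))), v (σ (f (Sum.inl (l, 1))))]) •
        ψ (fun j j' => v (σ (f (Sum.inr j))) (c j'))}

/-- All alternating maps on powers of `V` with values in `M` which are equivariant under a subgroup of
finite index come from such maps of degree less than `n` on powers `V ^ a`, `a < n`, by products with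
forms of degree two. -/
def ComeFromLowDegree (ρ : Representation K Γ V) (τ : Representation K Γ M) (χ : Γ →* K) (n : ℕ) :
    Prop :=
  ∀ (r N : ℕ) (g : (Fin r → V) [⋀^Fin N]→ₗ[K] M), IsTwisted ρ τ χ 0 g → g ∈ Products ρ τ χ n r N

end Pool.Agent.K6.H94.CO
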