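import Mathlib
import Pool.Agent.K6.H94.CO.Defs
import Pool.Agent.W529.Ta.Forms

/-!
# Zariski closures: stable subspaces and equivariant multilinear maps
-/

namespace Pool.Agent.K6.H94.CO

open Module Pool.Agent.W529.Ta Pool.Agent.H204R3.SP

variable {K : Type*} [Field K] {X : Type*} [AddCommGroup X] [Module K X]

theorem poly_lin (l : X →ₗ[K] K) : (fun x => l x) ∈ polyFun K X :=
  Algebra.subset_adjoin ⟨l, rfl⟩

theorem poly_const (c : K) : (fun _ : X => c) ∈ polyFun K X := (polyFun K X).algebraMap_mem c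

theorem poly_add {f g : X → K} (hf : f ∈ polyFun K X) (hg : g ∈ polyFun K X) :
    (fun x => f x + g x) ∈ polyFun K X := Subalgebra.add_mem _ hf hg

theorem poly_sub {f g : X → K} (hf : f ∈ polyFun K X) (hg : g ∈ polyFun K X) :
    (fun x => f x - g x) ∈ polyFun K X := Subalgebra.sub_mem _ hf hg

theorem poly_mul {f g : X → K} (hf : f ∈ polyFun K X) (hg : g ∈ polyFun K X) :
    (fun x => f x * g x) ∈ polyFun K X := Subalgebra.mul_mem _ hf hg

theorem poly_pow {f : X → K} (hf : f ∈ polyFun K X) (m : ℕ) :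
    (fun x => f x ^ m) ∈ polyFun K X := Subalgebra.pow_mem _ hf m

theorem poly_sum {ι : Type*} (s : Finset ι) (f : ι → X → K) (h : ∀ i ∈ s, f i ∈ polyFun K X) :
    (fun x => ∑ i ∈ s, f i x) ∈ polyFun K X := by
  have h1 : (fun x => ∑ i ∈ s, f i x) = ∑ i ∈ s, f i := by
    funext x
    rw [Finset.sum_apply]
  rw [h1]
  exact Subalgebra.sum_mem _ h

theorem poly_prod {ι : Type*} (s : Finset ι) (f : ι → X → K) (h : ∀ i ∈ s, f i ∈ polyFun K X) :
    (fun x => ∏ i ∈ s, f i x) ∈ polyFun K X := by
  have h1 : (fun x => ∏ i ∈ s, f i x) = ∏ i ∈ s, f i := by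
    funext x
    rw [Finset.prod_apply]
  rw [h1]
  exact Subalgebra.prod_mem _ h

variable {V : Type*} [AddCommGroup V] [Module K V] [FiniteDimensional K V]

theorem poly_multilinear {κ : Type*} [Fintype κ] (φ : MultilinearMap K (fun _ : κ => V) K)
    (a : κ → X →ₗ[K] V) : (fun x => φ (fun k => a k x)) ∈ polyFun K X := by
  classical
  let b := Module.finBasis K V
  have h1 : (fun x => φ (fun k => a k x)) = fun x => ∑ I : κ → Fin (finrank K V),
      (∏ k, b.repr (a k x) (I k)) * φ (fun k => b (I k)) := by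
    funext x
    have h2 : ∀ k, a k x = ∑ i, b.repr (a k x) i • b i := fun k => (b.sum_repr _).symm
    have h3 : φ (fun k => a k x) = φ (fun k => ∑ i, b.repr (a k x) i • b i) := by
      congr 1
      funext k
      exact h2 k
    rw [h3, φ.map_sum (fun k i => b.repr (a k x) i • b i)]
    refine Finset.sum_congr rfl fun I _ => ?_
    rw [φ.map_smul_univ (fun k => b.repr (a k x) (I k)) (fun k => b (I k)), smul_eq_mul]
  rw [h1]
  refine poly_sum _ _ fun I _ => poly_mul (poly_prod _ _ fun k _ => ?_) (poly_const _)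
  exact poly_lin ((b.coord (I k)).comp (a k))

/-- Subspaces of forms which are stable under a set are stable under its closure. -/
theorem closure_TT {κ : Type*} [Fintype κ] [DecidableEq κ] {S : Set (End K V)} {g : End K V}
    (hg : InClosure K S g) (U : Submodule K (MultilinearMap K (fun _ : κ => V) K))
    (hU : ∀ s ∈ S, ∀ f ∈ U, TT s f ∈ U) : ∀ f ∈ U, TT g f ∈ U := by
  intro f hf
  by_contra hcon
  obtain ⟨l, hl, hl'⟩ := Submodule.exists_dual_map_eq_bot_of_notMem hcon inferInstance
  apply hl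
  let Φ : MultilinearMap K (fun _ : κ => End K V) K :=
    (l.comp (LinearMap.applyₗ f)).compMultilinearMap
      (MultilinearMap.compLinearMapMultilinear (R := K) (M₁ := fun _ : κ => V)
        (M₁' := fun _ : κ => V) (M₂ := K))
  have hΦ : ∀ x : End K V, Φ (fun _ => x) = l (TT x f) := fun x => rfl
  have h1 := hg (fun x => Φ (fun _ => x)) (poly_multilinear Φ fun _ => LinearMap.id) (by
    intro s hs
    rw [hΦ]
    have h2 : l (TT s f) ∈ U.map l := ⟨_, hU s hs f hf, rfl⟩
    rw [hl'] at h2
    exact (Submodule.mem_bot K).1 h2)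
  exact h1

/-- A set of endomorphisms which map a subspace to another one. -/
theorem closure_map {S : Set (End K V)} {g : End K V} (hg : InClosure K S g)
    (p q : Submodule K V) (hS : ∀ s ∈ S, ∀ v ∈ p, s v ∈ q) : ∀ v ∈ p, g v ∈ q := by
  intro v hv
  by_contra hcon
  obtain ⟨l, hl, hl'⟩ := Submodule.exists_dual_map_eq_bot_of_notMem hcon inferInstance
  apply hl
  refine hg (fun x => l (x v)) (poly_lin (l.comp (LinearMap.applyₗ v))) fun s hs => ?_
  have h2 : l (s v) ∈ q.map l := ⟨_, hS s hs v hv, rfl⟩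
  rw [hl'] at h2
  exact (Submodule.mem_bot K).1 h2

/-- Projection of closures. -/
theorem closure_fst {M : Type*} [AddCommGroup M] [Module K M] {S : Set (End K V × End K M)}
    {S' : Set (End K V)} {x : End K V × End K M} (hx : InClosure K S x)
    (h : ∀ s ∈ S, s.1 ∈ S') : InClosure K S' x.1 := by
  intro f hf hf0
  have h1 : (fun y : End K V × End K M => f y.1) ∈ polyFun K (End K V × End K M) := by
    clear hf0
    induction hf using Algebra.adjoin_induction with
    | mem f hf =>
      obtain ⟨l, rfl⟩ := hf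
      exact poly_lin (l.comp (LinearMap.fst K (End K V) (End K M)))
    | algebraMap c => exact poly_const c
    | add f g _ _ hf hg => exact poly_add hf hg
    | mul f g _ _ hf hg => exact poly_mul hf hg
  exact hx _ h1 fun s hs => hf0 _ (h s hs)

variable {M : Type*} [AddCommGroup M] [Module K M] {Γ : Type*} [Group Γ]
  {ρ : Representation K Γ V} {τ : Representation K Γ M} {χ : Γ →* K}
  {ω : V →ₗ[K] V →ₗ[K] K}

/-- The relation for the form on the closure. -/
theorem closure_form (hωρ : ∀ s u v, ω (ρ s u) (ρ s v) = χ s * ω u v) {S : Set (End K V)}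
    (hS : ∀ g ∈ S, ∃ s, g = ρ s) {g : End K V} (hg : InClosure K S g) (u v u' v' : V) :
    ω (g u) (g v) * ω u' v' = ω (g u') (g v') * ω u v := by
  have hp : ∀ u v : V, (fun x : End K V => ω (x u) (x v)) ∈ polyFun K (End K V) := by
    intro u v
    exact poly_multilinear (bil2 ω) (fun i : Fin 2 => if i = 0 then LinearMap.applyₗ u else
      LinearMap.applyₗ v)
  have h1 := hg (fun x => ω (x u) (x v) * ω u' v' - ω (x u') (x v') * ω u v)
    (poly_sub (poly_mul (hp _ _) (poly_const _)) (poly_mul (hp _ _) (poly_const _))) (by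
      intro x hx
      obtain ⟨s, rfl⟩ := hS x hx
      rw [hωρ, hωρ]
      ring)
  exact sub_eq_zero.1 h1

/-- Equivariant multilinear maps and the closure. -/
theorem closure_pair (hωρ : ∀ s u v, ω (ρ s u) (ρ s v) = χ s * ω u v) {κ : Type*} [Fintype κ]
    (φ : MultilinearMap K (fun _ : κ => V) M) (m : ℕ) (Δ : Subgroup Γ)
    (hφ : ∀ s ∈ Δ, ∀ v, τ s (φ v) = χ s ^ m • φ (fun k => ρ s (v k)))
    {x : End K V × End K M}
    (hx : InClosure K {x : End K V × End K M | ∃ s ∈ Δ, x = (ρ s, τ s)} x)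
    {u₀ v₀ : V} (h0 : ω u₀ v₀ = 1) (v : κ → V) :
    x.2 (φ v) = (ω (x.1 u₀) (x.1 v₀)) ^ m • φ (fun k => x.1 (v k)) := by
  rw [← sub_eq_zero, ← Module.forall_dual_apply_eq_zero_iff K]
  intro l
  rw [map_sub, map_smul, smul_eq_mul]
  have hp : ∀ u v : V, (fun x : End K V × End K M => ω (x.1 u) (x.1 v)) ∈
      polyFun K (End K V × End K M) := by
    intro u v
    exact poly_multilinear (bil2 ω) (fun i : Fin 2 => if i = 0 then
      (LinearMap.applyₗ u).comp (LinearMap.fst K (End K V) (End K M)) else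
      (LinearMap.applyₗ v).comp (LinearMap.fst K (End K V) (End K M)))
  refine hx (fun x => l (x.2 (φ v)) - (ω (x.1 u₀) (x.1 v₀)) ^ m * l (φ (fun k => x.1 (v k))))
    (poly_sub (poly_lin ((l.comp (LinearMap.applyₗ (φ v))).comp (LinearMap.snd K (End K V) (End K M))))
      (poly_mul (poly_pow (hp _ _) m) (poly_multilinear (l.compMultilinearMap φ)
        (fun k => (LinearMap.applyₗ (v k)).comp (LinearMap.fst K (End K V) (End K M)))))) ?_
  rintro _ ⟨s, hs, rfl⟩
  change l (τ s (φ v)) - (ω (ρ s u₀) (ρ s v₀)) ^ m * l (φ (fun k => ρ s (v k))) = 0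
  rw [hφ s hs, map_smul, smul_eq_mul, hωρ, h0, mul_one, sub_self]

end Pool.Agent.K6.H94.CO
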