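import Mathlib
import Pool.Agent.K6.H94.CO.Poly
import Pool.Agent.K6.H94.BI.Split

/-!
# Consequences of large monodromy and of the existence of a cocharacter
-/

namespace Pool.Agent.K6.H94.CO

open Module Pool.Agent.W529.Ta Pool.Agent.H204R3.SP Pool.Agent.K6.H94.BI

variable {K : Type*} [Field K] [CharZero K] {V : Type*} [AddCommGroup V] [Module K V]
  [FiniteDimensional K V] {M : Type*} [AddCommGroup M] [Module K M] {Γ : Type*} [Group Γ]
  {ρ : Representation K Γ V} {τ : Representation K Γ M} {χ : Γ →* K}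
  {ω : V →ₗ[K] V →ₗ[K] K}

theorem two_zpow_inj {x y : ℤ} (h : (2 : K) ^ x = 2 ^ y) : x = y := by
  have h1 : (((2 : ℚ) ^ x : ℚ) : K) = (((2 : ℚ) ^ y : ℚ) : K) := by
    push_cast
    exact h
  exact zpow_right_injective₀ (by norm_num) (by norm_num) (Rat.cast_injective h1)

omit [CharZero K] in
/-- The two eigenspaces of the cocharacter are isotropic. -/
theorem isotropic (halt : ∀ v, ω v v = 0) (hnd : ∀ u, (∀ v, ω v u = 0) → u = 0)
    (hωρ : ∀ s u v, ω (ρ s u) (ρ s v) = χ s * ω u v) {S : Set (End K V)}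
    (hS : ∀ g ∈ S, ∃ s, g = ρ s) {e : End K V} (he : e * e = e) (he0 : e ≠ 0) (he1 : e ≠ 1)
    {c : K} (hc0 : c ≠ 0) (hc1 : c ≠ 1) (hc2 : c ^ 2 ≠ 1)
    (hg : InClosure K S (1 + (c - 1) • e)) :
    (∀ u v, ω (e u) (e v) = 0) ∧ ∀ u v, ω (u - e u) (v - e v) = 0 := by
  have hee : ∀ u, e (e u) = e u := fun u => congrArg (fun f : End K V => f u) he
  have hf := closure_form hωρ hS hg
  set g : End K V := 1 + (c - 1) • e with hgdef
  have hg1 : ∀ u, g (e u) = c • e u := by
    intro u
    change e u + (c - 1) • e (e u) = _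
    rw [hee]
    module
  have hg2 : ∀ u, g (u - e u) = u - e u := by
    intro u
    change (u - e u) + (c - 1) • e (u - e u) = _
    rw [map_sub, hee, sub_self, smul_zero, add_zero]
  have hanti := anti halt
  constructor
  · intro u' v'
    by_contra hne
    apply he1
    refine LinearMap.ext fun u => ?_
    rw [Module.End.one_apply]
    symm
    rw [← sub_eq_zero]
    have h1 : ∀ v, ω (u - e u) (v - e v) = 0 := by
      intro v
      have h2 := hf (u - e u) (v - e v) (e u') (e v')
      rw [hg2, hg2, hg1, hg1, map_smul, map_smul, LinearMap.smul_apply, smul_eq_mul,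
        smul_eq_mul] at h2
      have h3 : (c ^ 2 - 1) * (ω (e u') (e v') * ω (u - e u) (v - e v)) = 0 := by
        linear_combination -h2
      have h4 := (mul_eq_zero.1 h3).resolve_left (sub_ne_zero.2 hc2)
      exact (mul_eq_zero.1 h4).resolve_left hne
    have h2 : ∀ v, ω (u - e u) (e v) = 0 := by
      intro v
      have h2 := hf (u - e u) (e v) (e u') (e v')
      rw [hg2, hg1, hg1, hg1, map_smul, map_smul, map_smul, LinearMap.smul_apply, smul_eq_mul,
        smul_eq_mul, smul_eq_mul] at h2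
      have h3 : c * ((c - 1) * (ω (e u') (e v') * ω (u - e u) (e v))) = 0 := by
        linear_combination -h2
      have h4 := (mul_eq_zero.1 h3).resolve_left hc0
      have h5 := (mul_eq_zero.1 h4).resolve_left (sub_ne_zero.2 hc1)
      exact (mul_eq_zero.1 h5).resolve_left hne
    apply hnd
    intro v
    have h3 : v = (v - e v) + e v := by abel
    rw [hanti, h3, map_add, h1, h2, add_zero, neg_zero]
  · intro u' v'
    by_contra hne
    apply he0
    refine LinearMap.ext fun u => ?_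
    rw [LinearMap.zero_apply]
    have h1 : ∀ v, ω (e u) (v - e v) = 0 := by
      intro v
      have h2 := hf (e u) (v - e v) (u' - e u') (v' - e v')
      rw [hg1, hg2, hg2, hg2, map_smul, LinearMap.smul_apply, smul_eq_mul] at h2
      have h3 : (c - 1) * (ω (u' - e u') (v' - e v') * ω (e u) (v - e v)) = 0 := by
        linear_combination h2
      have h4 := (mul_eq_zero.1 h3).resolve_left (sub_ne_zero.2 hc1)
      exact (mul_eq_zero.1 h4).resolve_left hne
    have h2 : ∀ v, ω (e u) (e v) = 0 := by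
      intro v
      have h2 := hf (e u) (e v) (u' - e u') (v' - e v')
      rw [hg1, hg1, hg2, hg2, map_smul, map_smul, LinearMap.smul_apply, smul_eq_mul,
        smul_eq_mul] at h2
      have h3 : (c ^ 2 - 1) * (ω (u' - e u') (v' - e v') * ω (e u) (e v)) = 0 := by
        linear_combination h2
      have h4 := (mul_eq_zero.1 h3).resolve_left (sub_ne_zero.2 hc2)
      exact (mul_eq_zero.1 h4).resolve_left hne
    apply hnd
    intro v
    have h3 : v = (v - e v) + e v := by abel
    rw [hanti, h3, map_add, h1, h2, add_zero, neg_zero]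

/-- **Vanishing of equivariant maps of high degree on one of the two eigenspaces.** -/
theorem vanish (halt : ∀ v, ω v v = 0) (hnd : ∀ u, (∀ v, ω v u = 0) → u = 0)
    (hωρ : ∀ s u v, ω (ρ s u) (ρ s v) = χ s * ω u v) {κ : Type*} [Fintype κ]
    (φ : MultilinearMap K (fun _ : κ => V) M) (m : ℕ) (Δ : Subgroup Γ)
    (hφ : ∀ s ∈ Δ, ∀ v, τ s (φ v) = χ s ^ m • φ (fun k => ρ s (v k)))
    {n N : ℕ} (hN : 0 < N) {e : End K V} (he : e * e = e) (he0 : e ≠ 0) (he1 : e ≠ 1) {a : ℤ}
    {P : Fin (n * N) → End K M} (hsum : ∑ j, P j = 1) (hidem : ∀ j, P j * P j = P j)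
    (hort : ∀ i j, i ≠ j → P i * P j = 0)
    (hx : InClosure K {x : End K V × End K M | ∃ s ∈ Δ, x = (ρ s, τ s)}
        (1 + ((2 : K) ^ N - 1) • e, ∑ j : Fin (n * N), (2 : K) ^ (a + ((j : ℕ) : ℤ)) • P j))
    (hcard : n ≤ Fintype.card κ) :
    (∀ v : κ → V, (∀ k, e (v k) = v k) → φ v = 0) ∨
      (∀ v : κ → V, (∀ k, e (v k) = 0) → φ v = 0) := by
  have hc0 : (2 : K) ^ N ≠ 0 := pow_ne_zero _ two_ne_zero
  have hinj : ∀ x y : ℕ, (2 : K) ^ x = 2 ^ y → x = y := by
    intro x y h
    have h1 : (2 : K) ^ (x : ℤ) = 2 ^ (y : ℤ) := by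
      rw [zpow_natCast, zpow_natCast]
      exact h
    exact_mod_cast two_zpow_inj h1
  have hc1 : (2 : K) ^ N ≠ 1 := by
    intro h
    have := hinj N 0 (by rw [h, pow_zero])
    omega
  have hc2 : ((2 : K) ^ N) ^ 2 ≠ 1 := by
    intro h
    have := hinj (N * 2) 0 (by rw [pow_mul, h, pow_zero])
    omega
  have hg : InClosure K {g : End K V | ∃ s ∈ Δ, g = ρ s} (1 + ((2 : K) ^ N - 1) • e) :=
    closure_fst hx fun s hs => by
      obtain ⟨s, hs, rfl⟩ := hs
      exact ⟨s, hs, rfl⟩
  obtain ⟨hi1, hi2⟩ := isotropic halt hnd hωρ (fun g hg => by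
    obtain ⟨s, _, rfl⟩ := hg
    exact ⟨s, rfl⟩) he he0 he1 hc0 hc1 hc2 hg
  have hee : ∀ u, e (e u) = e u := fun u => congrArg (fun f : End K V => f u) he
  -- the similitude factor
  obtain ⟨u₀, v₀, h0⟩ : ∃ u₀ v₀, ω u₀ v₀ = 1 := by
    obtain ⟨u, hu⟩ : ∃ u, e u ≠ 0 := by
      by_contra hcon
      push Not at hcon
      exact he0 (LinearMap.ext hcon)
    obtain ⟨v, hv⟩ : ∃ v, ω v (e u) ≠ 0 := by
      by_contra hcon
      push Not at hcon
      exact hu (hnd _ hcon)
    refine ⟨(ω v (e u))⁻¹ • v, e u, ?_⟩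
    rw [map_smul, LinearMap.smul_apply, smul_eq_mul, inv_mul_cancel₀ hv]
  have hfac : ω ((1 + ((2 : K) ^ N - 1) • e : End K V) u₀) ((1 + ((2 : K) ^ N - 1) • e : End K V) v₀)
      = 2 ^ N := by
    have e1 : ∀ u, (1 + ((2 : K) ^ N - 1) • e : End K V) u = (2 : K) ^ N • e u + (u - e u) := by
      intro u
      change u + ((2 : K) ^ N - 1) • e u = _
      module
    have h1 := hi1 u₀ v₀
    have h2 := hi2 u₀ v₀
    simp only [map_sub, LinearMap.sub_apply] at h2
    rw [e1, e1]
    simp only [map_add, map_smul, map_sub, LinearMap.add_apply, LinearMap.smul_apply,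
      LinearMap.sub_apply, smul_eq_mul]
    linear_combination (2 ^ N) * h0 + ((2 : K) ^ N) ^ 2 * h1 - 2 * 2 ^ N * h1 + h2 - 2 ^ N * h2 +
      (2 ^ N) * h1
  have hpair := closure_pair hωρ φ m Δ hφ hx h0
  have hact : ∀ v : κ → V, ∀ r : ℕ, (∀ k, (1 + ((2 : K) ^ N - 1) • e : End K V) (v k) =
      ((2 : K) ^ r) • v k) → φ v ≠ 0 → ∃ j : Fin (n * N), a + ((j : ℕ) : ℤ) =
        ((N * m + r * Fintype.card κ : ℕ) : ℤ) := by
    intro v r hv hne
    have h1 := hpair v
    have h2 : φ (fun k => (1 + ((2 : K) ^ N - 1) • e : End K V) (v k)) =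
        (2 : K) ^ (r * Fintype.card κ) • φ v := by
      have h3 : (fun k => (1 + ((2 : K) ^ N - 1) • e : End K V) (v k)) =
          fun k => (2 : K) ^ r • v k := funext hv
      rw [h3, φ.map_smul_univ (fun _ => (2 : K) ^ r) v, Finset.prod_const, Finset.card_univ,
        ← pow_mul]
    simp only at h1
    rw [hfac, h2, smul_smul, ← pow_mul, ← pow_add] at h1
    obtain ⟨j, hj⟩ : ∃ j, P j (φ v) ≠ 0 := by
      by_contra hcon
      push Not at hcon
      apply hne
      have h3 : φ v = (∑ j, P j) (φ v) := by rw [hsum]; rfl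
      rw [h3, LinearMap.sum_apply]
      exact Finset.sum_eq_zero fun j _ => hcon j
    refine ⟨j, ?_⟩
    have h3 := congrArg (P j) h1
    rw [LinearMap.sum_apply, map_sum, Finset.sum_eq_single j] at h3
    · rw [LinearMap.smul_apply, map_smul, map_smul] at h3
      have h4 : P j (P j (φ v)) = P j (φ v) := congrArg (fun f : End K M => f (φ v)) (hidem j)
      rw [h4] at h3
      have h5 : ((2 : K) ^ (a + ((j : ℕ) : ℤ)) - 2 ^ (N * m + r * Fintype.card κ)) • P j (φ v) = 0 := by
        rw [sub_smul, h3, sub_self]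
      have h6 := (smul_eq_zero.1 h5).resolve_right hj
      rw [sub_eq_zero, ← zpow_natCast] at h6
      exact two_zpow_inj h6
    · intro i _ hi
      have h4 : P j (P i (φ v)) = 0 := congrArg (fun f : End K M => f (φ v)) (hort j i hi.symm)
      rw [LinearMap.smul_apply, map_smul, h4, smul_zero]
    · intro h
      exact absurd (Finset.mem_univ _) h
  by_contra hcon
  push Not at hcon
  obtain ⟨⟨v, hv, hv0⟩, v', hv', hv0'⟩ := hcon
  obtain ⟨j, hj⟩ := hact v N (fun k => by
    change v k + ((2 : K) ^ N - 1) • e (v k) = _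
    rw [hv]
    module) hv0
  obtain ⟨j', hj'⟩ := hact v' 0 (fun k => by
    change v' k + ((2 : K) ^ N - 1) • e (v' k) = _
    rw [hv', smul_zero, add_zero, pow_zero, one_smul]) hv0'
  have h1 : ((j : ℕ) : ℤ) = ((j' : ℕ) : ℤ) + ((N * Fintype.card κ : ℕ) : ℤ) := by
    push_cast at hj hj' ⊢
    linarith
  have h2 : (j : ℕ) = (j' : ℕ) + N * Fintype.card κ := by exact_mod_cast h1
  have h3 := j.2
  have h4 : n * N ≤ N * Fintype.card κ := by
    rw [mul_comm]
    exact Nat.mul_le_mul_left _ hcard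
  omega

/-- Subspaces of forms which are stable under a subgroup of finite index are stable under the
symplectic Lie algebras. -/
theorem stable_SS (halt : ∀ v, ω v v = 0) {ι : Type*} {W : ι → Submodule K V}
    (hlarge : IsLarge ρ ω W) {κ : Type*} [Fintype κ] [DecidableEq κ] (Δ : Subgroup Γ)
    (hΔ : Δ.FiniteIndex) (U : Submodule K (MultilinearMap K (fun _ : κ => V) K))
    (hU : ∀ s ∈ Δ, ∀ f ∈ U, TT (ρ s) f ∈ U) (i : ι) (u v : V) (hu : u ∈ W i) (hv : v ∈ W i) :
    ∀ f ∈ U, dF (SS ω u v) f ∈ U := by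
  have h1 : ∀ v ∈ W i, ∀ f ∈ U, dF ((ω v).smulRight v) f ∈ U := by
    intro v hv f hf
    set Y : End K V := (ω v).smulRight v with hY
    have hY2 : Y ^ 2 = 0 := by
      rw [pow_two]
      refine LinearMap.ext fun x => ?_
      change ω v (ω v x • v) • v = 0
      rw [map_smul, halt, smul_zero, zero_smul]
    have hcl : ∀ f ∈ U, TT (1 + Y) f ∈ U := closure_TT (hlarge Δ hΔ i v hv) U (by
      rintro _ ⟨s, hs, rfl⟩ f hf
      exact hU s hs f hf)
    have hexpo : expo Y 2 1 = 1 + Y := by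
      rw [expo_one, Finset.sum_range_succ, Finset.sum_range_one]
      simp
    have hpow : ∀ t : ℕ, ∀ f ∈ U, TT (expo Y 2 (1 * t)) f ∈ U := by
      intro t
      rw [← expo_pow Y 2 hY2, hexpo]
      induction t with
      | zero =>
        intro f hf
        have h2 : TT ((1 + Y) ^ 0) f = f := by
          ext v
          rw [TT_apply, pow_zero]
          rfl
        rw [h2]
        exact hf
      | succ t ih =>
        intro f hf
        have h2 : TT ((1 + Y) ^ (t + 1)) f = TT (1 + Y) (TT ((1 + Y) ^ t) f) := by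
          ext v
          rw [TT_apply, TT_apply, TT_apply, pow_succ]
          rfl
        rw [h2]
        exact hcl _ (ih f hf)
    obtain ⟨D, c, -, -, hc⟩ := der_eq_sum f hY2 (k := 1) one_pos
    have h2 : dF Y f = ∑ t ∈ Finset.range (D + 1), c t • TT (expo Y 2 (1 * t)) f := by
      ext v
      rw [dF_apply, MultilinearMap.sum_apply]
      exact hc v
    rw [h2]
    exact U.sum_mem fun t _ => U.smul_mem _ (hpow t f hf)
  intro f hf
  have h2 : SS ω u v = (ω (u + v)).smulRight (u + v) - (ω u).smulRight u - (ω v).smulRight v := by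
    ext x
    rw [SS_apply]
    simp only [LinearMap.sub_apply, LinearMap.smulRight_apply, map_add, LinearMap.add_apply]
    module
  have h3 : dF (SS ω u v) f = dF ((ω (u + v)).smulRight (u + v)) f - dF ((ω u).smulRight u) f -
      dF ((ω v).smulRight v) f := by
    have h4 : SS ω u v + (ω u).smulRight u + (ω v).smulRight v =
        (ω (u + v)).smulRight (u + v) := by
      rw [h2]
      abel
    rw [← h4, dF_add, dF_add]
    abel
  rw [h3]
  exact U.sub_mem (U.sub_mem (h1 _ ((W i).add_mem hu hv) f hf) (h1 u hu f hf)) (h1 v hv f hf)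

omit [CharZero K] in
/-- Endomorphisms which commute with a subgroup of finite index have all vectors in the `W i` as
eigenvectors. -/
theorem eigen (hanti : ∀ u v, ω u v = -ω v u) (hnd : ∀ u, (∀ v, ω v u = 0) → u = 0) {ι : Type*}
    {W : ι → Submodule K V} (hlarge : IsLarge ρ ω W) (Δ : Subgroup Γ) (hΔ : Δ.FiniteIndex)
    (P : End K V) (hP : ∀ s ∈ Δ, ∀ v, P (ρ s v) = ρ s (P v)) (i : ι) (v : V) (hv : v ∈ W i) :
    ∃ c : K, P v = c • v := by
  by_cases hv0 : v = 0
  · exact ⟨0, by rw [hv0, map_zero, smul_zero]⟩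
  obtain ⟨x, hx⟩ : ∃ x, ω v x ≠ 0 := by
    by_contra hcon
    push Not at hcon
    refine hv0 (hnd v fun u => ?_)
    rw [hanti, hcon, neg_zero]
  have h1 : P * (1 + (ω v).smulRight v) = (1 + (ω v).smulRight v) * P := by
    rw [← sub_eq_zero, ← Module.forall_dual_apply_eq_zero_iff K]
    intro l
    refine hlarge Δ hΔ i v hv (fun g => l (P * g - g * P)) ?_ ?_
    · exact poly_lin (l.comp ((LinearMap.mulLeft K P) - (LinearMap.mulRight K P)))
    · rintro _ ⟨s, hs, rfl⟩
      have h2 : P * ρ s - ρ s * P = 0 := by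
        rw [sub_eq_zero]
        exact LinearMap.ext fun v => hP s hs v
      change l (P * ρ s - ρ s * P) = 0
      rw [h2, map_zero]
  have h2 := congrArg (fun f : End K V => f x) h1
  change P (x + ω v x • v) = P x + ω v (P x) • v at h2
  rw [map_add, map_smul, add_left_cancel_iff] at h2
  refine ⟨(ω v x)⁻¹ * ω v (P x), ?_⟩
  rw [mul_smul, ← h2, smul_smul, inv_mul_cancel₀ hx, one_smul]

end Pool.Agent.K6.H94.CO
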