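import Mathlib
import Pool.Agent.K6.H94.CO.Coch
import Pool.Agent.Y128.GT.Base

/-!
# Symplectic bases adapted to a decomposition and to a pair of Lagrangian subspaces
-/

set_option linter.unusedSectionVars false

namespace Pool.Agent.K6.H94.CO

open Module Pool.Agent.W529.Ta Pool.Agent.H204R3.SP Pool.Agent.H204R3.GP Pool.Agent.K6.H94.BI
  Pool.Agent.Y128.GT

section general

variable {K : Type*} [Field K]

theorem li_of_Jst {V : Type*} [AddCommGroup V] [Module K V] (ω : V →ₗ[K] V →ₗ[K] K) {k : ℕ}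
    (c : Fin k × Fin 2 → V) (hc : ∀ x y, ω (c x) (c y) = Jst K x y) : LinearIndependent K c := by
  rw [Fintype.linearIndependent_iff]
  intro g hg x
  obtain ⟨m, i⟩ := x
  have key : ∀ y, ∑ x, g x * Jst K x y = 0 := by
    intro y
    have h1 := congrArg (fun v => ω v (c y)) hg
    simp only [map_sum, map_smul, LinearMap.sum_apply, LinearMap.smul_apply, smul_eq_mul,
      hc, map_zero, LinearMap.zero_apply] at h1
    exact h1
  have h0 := key (m, if i = 0 then 1 else 0)
  rw [Finset.sum_eq_single (m, i)] at h0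
  · fin_cases i
    · simpa [Jst] using h0
    · simpa [Jst] using h0
  · rintro ⟨m', i'⟩ _ hne
    by_cases hm : m' = m
    · subst hm
      have hi : i' ≠ i := fun h => hne (by rw [h])
      have haux : ∀ i i' : Fin 2, i' ≠ i →
          ¬ (i' = 0 ∧ (if i = 0 then (1 : Fin 2) else 0) = 1) ∧
          ¬ (i' = 1 ∧ (if i = 0 then (1 : Fin 2) else 0) = 0) := by decide
      obtain ⟨h3, h4⟩ := haux i i' hi
      unfold Jst
      rw [if_pos rfl, if_neg h3, if_neg h4, mul_zero]
    · simp [Jst, hm]
  · intro h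
    exact absurd (Finset.mem_univ _) h

/-- A symplectic basis adapted to a pair of Lagrangian subspaces. -/
theorem exists_lag {V : Type*} [AddCommGroup V] [Module K V] [FiniteDimensional K V]
    (ω : V →ₗ[K] V →ₗ[K] K) (halt : ∀ v, ω v v = 0) (hnd : ∀ u, (∀ v, ω v u = 0) → u = 0)
    (e : End K V) (he : e * e = e) (h1 : ∀ u v, ω (e u) (e v) = 0)
    (h2 : ∀ u v, ω (u - e u) (v - e v) = 0) :
    ∃ k, ∃ b : Basis (Fin k × Fin 2) K V, (∀ x y, ω (b x) (b y) = Jst K x y) ∧
      ∀ a, e (b (a, 0)) = b (a, 0) ∧ e (b (a, 1)) = 0 := by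
  classical
  have hanti := anti halt
  have hee : ∀ u, e (e u) = e u := fun u => congrArg (fun f : End K V => f u) he
  let L : Submodule K V := LinearMap.range e
  let bL : Basis (Fin (finrank K L)) K L := Module.finBasis K L
  let eL : V →ₗ[K] L := e.rangeRestrict
  have heL : ∀ v, (eL v : V) = e v := fun v => rfl
  have hbL : ∀ a, e (bL a : V) = bL a := by
    intro a
    obtain ⟨w, hw⟩ := (bL a).2
    rw [← hw, hee]
  have heLb : ∀ a, eL (bL a : V) = bL a := fun a => Subtype.ext (hbL a)
  have hsurj : Function.Surjective ω.flip := by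
    rw [← LinearMap.injective_iff_surjective_of_finrank_eq_finrank
      (Subspace.dual_finrank_eq (K := K) (V := V)).symm]
    rw [injective_iff_map_eq_zero]
    intro u hu
    refine hnd u fun v => ?_
    have h3 := congrArg (fun f : V →ₗ[K] K => f v) hu
    exact h3
  choose b' hb' using fun a => hsurj ((bL.coord a).comp eL)
  have hb : ∀ a w, ω w (b' a) = bL.repr (eL w) a := fun a w =>
    congrArg (fun f : V →ₗ[K] K => f w) (hb' a)
  have heb' : ∀ a, e (b' a) = 0 := by
    intro a
    apply hnd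
    intro w
    have h3 : ω w (e (b' a)) = ω (e w) (e (b' a)) + (ω (w - e w) (b' a) -
        ω (w - e w) (b' a - e (b' a))) := by
      simp only [map_sub, LinearMap.sub_apply]
      ring
    have h4 : eL (w - e w) = 0 := by
      apply Subtype.ext
      rw [heL, map_sub, hee, sub_self]
      rfl
    rw [h3, h1, h2, hb, h4, map_zero, Finsupp.zero_apply, sub_zero, add_zero]
  let c : Fin (finrank K L) × Fin 2 → V := fun x => if x.2 = 0 then (bL x.1 : V) else b' x.1
  have hc0 : ∀ a, c (a, 0) = bL a := fun a => if_pos rfl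
  have hc1 : ∀ a, c (a, 1) = b' a := fun a => if_neg (by simp)
  have hω00 : ∀ a a', ω (bL a : V) (bL a') = 0 := by
    intro a a'
    rw [← hbL a, ← hbL a', h1]
  have hω11 : ∀ a a', ω (b' a) (b' a') = 0 := by
    intro a a'
    have h3 := h2 (b' a) (b' a')
    rw [heb', heb', sub_zero, sub_zero] at h3
    exact h3
  have hω01 : ∀ a a', ω (bL a : V) (b' a') = if a = a' then 1 else 0 := by
    intro a a'
    rw [hb, heLb, Basis.repr_self, Finsupp.single_apply]
  have hω : ∀ x y, ω (c x) (c y) = Jst K x y := by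
    rintro ⟨a, s⟩ ⟨a', s'⟩
    fin_cases s
    · fin_cases s'
      · simp only [Fin.zero_eta, hc0, hω00]
        simp [Jst]
      · simp only [Fin.zero_eta, Fin.mk_one, hc0, hc1, hω01]
        simp [Jst]
    · fin_cases s'
      · simp only [Fin.zero_eta, Fin.mk_one, hc0, hc1]
        rw [hanti, hω01]
        by_cases h : a = a'
        · subst h
          simp [Jst]
        · simp [Jst, h, Ne.symm h]
      · simp only [Fin.mk_one, hc1, hω11]
        simp [Jst]
  have hli := li_of_Jst ω c hω
  have hspan : ⊤ ≤ Submodule.span K (Set.range c) := by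
    intro u _
    have e1 : e u = ∑ a, bL.repr (eL u) a • (bL a : V) := by
      have h3 := congrArg (Submodule.subtype L) (bL.sum_repr (eL u))
      rw [map_sum] at h3
      exact h3.symm
    have e2 : (u - e u) - ∑ a, ω (bL a : V) (u - e u) • b' a = 0 := by
      set w := (u - e u) - ∑ a, ω (bL a : V) (u - e u) • b' a with hw
      have hew : e w = 0 := by
        rw [hw, map_sub, map_sub, hee, sub_self, map_sum, zero_sub, neg_eq_zero]
        refine Finset.sum_eq_zero fun a _ => ?_
        rw [map_smul, heb', smul_zero]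
      have hLw : ∀ a, ω (bL a : V) w = 0 := by
        intro a
        rw [hw, map_sub, map_sum, Finset.sum_eq_single a]
        · rw [map_smul, hω01, if_pos rfl, smul_eq_mul, mul_one, sub_self]
        · intro x _ hx
          rw [map_smul, hω01, if_neg (Ne.symm hx), smul_zero]
        · intro h
          exact absurd (Finset.mem_univ _) h
      apply hnd
      intro v
      have h3 : v = (v - e v) + e v := by abel
      have h4 : e v = ∑ a, bL.repr (eL v) a • (bL a : V) := by
        have h3 := congrArg (Submodule.subtype L) (bL.sum_repr (eL v))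
        rw [map_sum] at h3
        exact h3.symm
      have h5 : ω (e v) w = 0 := by
        rw [h4, map_sum, LinearMap.sum_apply]
        refine Finset.sum_eq_zero fun a _ => ?_
        rw [map_smul, LinearMap.smul_apply, hLw, smul_zero]
      have h6 := h2 v w
      rw [hew, sub_zero] at h6
      rw [h3, map_add, LinearMap.add_apply, h5, h6, add_zero]
    have e3 : u = ∑ a, bL.repr (eL u) a • c (a, 0) + ∑ a, ω (bL a : V) (u - e u) • c (a, 1) := by
      simp only [hc0, hc1]
      rw [← e1]
      have h3 := sub_eq_zero.1 e2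
      rw [← h3]
      abel
    rw [e3]
    exact Submodule.add_mem _ (Submodule.sum_mem _ fun a _ => Submodule.smul_mem _ _
      (Submodule.subset_span ⟨_, rfl⟩)) (Submodule.sum_mem _ fun a _ => Submodule.smul_mem _ _
      (Submodule.subset_span ⟨_, rfl⟩))
  refine ⟨finrank K L, Basis.mk hli hspan, fun x y => ?_, fun a => ?_⟩
  · rw [Basis.mk_apply, Basis.mk_apply, hω]
  · rw [Basis.mk_apply, Basis.mk_apply, hc0, hc1]
    exact ⟨hbL a, heb' a⟩

/-- A symplectic basis adapted to a decomposition and a pair of Lagrangian subspaces. -/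
theorem exists_adapted_lag {V : Type*} [AddCommGroup V] [Module K V] [FiniteDimensional K V]
    {ι : Type*} [Fintype ι] [DecidableEq ι] (ω : V →ₗ[K] V →ₗ[K] K) (halt : ∀ v, ω v v = 0)
    (hnd : ∀ u, (∀ v, ω v u = 0) → u = 0) (W : ι → Submodule K V) (hspan : ⨆ i, W i = ⊤)
    (horth : ∀ i j, i ≠ j → ∀ u ∈ W i, ∀ v ∈ W j, ω u v = 0)
    (e : End K V) (he : e * e = e) (h1 : ∀ u v, ω (e u) (e v) = 0)
    (h2 : ∀ u v, ω (u - e u) (v - e v) = 0) (heW : ∀ i, ∀ v ∈ W i, e v ∈ W i) :
    ∃ (k : ι → ℕ) (b : Basis (Σ i, Fin (k i) × Fin 2) K V),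
      (∀ x, b x ∈ W x.1) ∧ (∀ x y, ω (b x) (b y) = JJ BI.flip (sgn K) x y) ∧
      (∀ i, W i ≤ Submodule.span K (b '' {x | x.1 = i})) ∧
      (∀ x, x.2.2 = 0 → e (b x) = b x) ∧ ∀ x, x.2.2 ≠ 0 → e (b x) = 0 := by
  classical
  have hb : ∀ i, ∃ k, ∃ b : Basis (Fin k × Fin 2) K (W i), (∀ x y,
      ω (b x : V) (b y : V) = Jst K x y) ∧ ∀ a, e (b (a, 0) : V) = b (a, 0) ∧
      e (b (a, 1) : V) = 0 := by
    intro i
    obtain ⟨k, b, hb, hb'⟩ := exists_lag (ω.domRestrict₁₂ (W i) (W i)) (fun v => halt v) (by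
      intro u hu
      apply Subtype.ext
      exact nondeg_part ω hnd W hspan horth i u u.2 fun v hv => hu ⟨v, hv⟩)
      (e.restrict (heW i)) (by
        ext v
        exact congrArg (fun f : End K V => f v) he) (fun u v => h1 u v) (fun u v => h2 u v)
    exact ⟨k, b, hb, fun a => ⟨congrArg Subtype.val (hb' a).1, congrArg Subtype.val (hb' a).2⟩⟩
  choose k b hb hb' using hb
  have hint := DirectSum.isInternal_submodule_of_iSupIndep_of_iSup_eq_top
    (indep ω hnd W hspan horth) hspan
  refine ⟨k, hint.collectedBasis b, fun x => hint.collectedBasis_mem b x, fun x y => ?_,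
    fun i => ?_, fun x hx => ?_, fun x hx => ?_⟩
  · rw [hint.collectedBasis_coe]
    obtain ⟨i, a, s⟩ := x
    obtain ⟨j, c, t⟩ := y
    unfold JJ
    by_cases hij : i = j
    · subst hij
      simp only [hb, Jst, BI.flip, sgn, Sigma.mk.injEq, heq_eq_eq, Prod.mk.injEq, true_and]
      by_cases hac : a = c
      · subst hac
        fin_cases s <;> fin_cases t <;> simp
      · rw [if_neg hac, if_neg (fun h => hac h.1.symm)]
    · rw [if_neg]
      · exact horth i j hij _ (b i (a, s)).2 _ (b j (c, t)).2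
      · intro h
        exact hij (congrArg Sigma.fst h).symm
  · intro v hv
    have h1 := (b i).mem_span ⟨v, hv⟩
    have h2 := Submodule.mem_map_of_mem (f := (W i).subtype) h1
    rw [Submodule.map_span] at h2
    refine Submodule.span_mono ?_ h2
    rintro _ ⟨_, ⟨x, rfl⟩, rfl⟩
    refine ⟨⟨i, x⟩, rfl, ?_⟩
    rw [hint.collectedBasis_coe]
    rfl
  · obtain ⟨i, a, s⟩ := x
    change s = 0 at hx
    subst hx
    rw [hint.collectedBasis_coe]
    exact (hb' i a).1
  · obtain ⟨i, a, s⟩ := x
    change s ≠ 0 at hx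
    have hs : s = 1 := by omega
    subst hs
    rw [hint.collectedBasis_coe]
    exact (hb' i a).2

end general

variable {K : Type} [Field K] [CharZero K] {V : Type} [AddCommGroup V] [Module K V]
  [FiniteDimensional K V] {Γ : Type} [Group Γ] {ρ : Representation K Γ V} {χ : Γ →* K}

/-- The frame attached to an idempotent. -/
theorem exists_frame {ι : Type} [Fintype ι] [DecidableEq ι] (ω : V →ₗ[K] V →ₗ[K] K)
    (halt : ∀ v, ω v v = 0) (hnd : ∀ u, (∀ v, ω v u = 0) → u = 0)
    (hωρ : ∀ s u v, ω (ρ s u) (ρ s v) = χ s * ω u v) (W : ι → Submodule K V)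
    (hspan : ⨆ i, W i = ⊤) (horth : ∀ i j, i ≠ j → ∀ u ∈ W i, ∀ v ∈ W j, ω u v = 0)
    (hstab : ∀ i s, ∀ v ∈ W i, ρ s v ∈ W i) (hlarge : IsLarge ρ ω W)
    (e : End K V) (he : e * e = e) (h1 : ∀ u v, ω (e u) (e v) = 0)
    (h2 : ∀ u v, ω (u - e u) (v - e v) = 0) (heW : ∀ i, ∀ v ∈ W i, e v ∈ W i) :
    ∃ (k : ι → ℕ) (Fr : Frame ρ χ (Σ i, Fin (k i) × Fin 2) ι), Fr.ω = ω ∧
      (∀ x, Fr.e x ∈ W (Fr.cls x)) ∧ (∀ i, W i ≤ Submodule.span K (Fr.e '' {x | Fr.cls x = i})) ∧
      ∀ x, Fr.sg x = true → e (Fr.e x) = Fr.e x := by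
  obtain ⟨k, b, hbW, hbω, hWb, hb0, hb1⟩ := exists_adapted_lag ω halt hnd W hspan horth e he h1 h2
    heW
  have hjj : ∀ x : Σ i, Fin (k i) × Fin 2, jj K (fun x : Σ i, Fin (k i) × Fin 2 =>
      decide (x.2.2 = 0)) x = sgn K x := by
    intro x
    unfold jj sgn
    simp only [decide_eq_true_eq]
  refine ⟨k, { e := b, inv := BI.flip, cls := Sigma.fst, sg := fun x => decide (x.2.2 = 0),
               ω := ω, inv_inv := flip_flip, cls_inv := fun x => rfl, sg_inv := ?_, hω := ?_,
               weil := hωρ, block := ?_, schur := ?_ }, rfl, hbW, hWb, ?_⟩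
  · intro x
    obtain ⟨i, a, s⟩ := x
    fin_cases s <;> rfl
  · intro x y
    rw [hbω]
    unfold JJ
    rw [hjj]
  · intro g x y hxy
    have h3 := hWb x.1 (hstab x.1 g _ (hbW x))
    rw [Basis.mem_span_image] at h3
    by_contra hcon
    exact hxy (h3 (Finsupp.mem_support_iff.2 hcon))
  · intro Δ hΔ P hP
    have h3 : ∀ i, ∃ c : K, ∀ x : Σ i, Fin (k i) × Fin 2, x.1 = i → P (b x) = c • b x := by
      intro i
      by_cases hne : Nonempty {x : Σ i, Fin (k i) × Fin 2 // x.1 = i}
      · obtain ⟨⟨x, rfl⟩⟩ := hne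
        obtain ⟨c, hc⟩ := eigen (anti halt) hnd hlarge Δ hΔ P hP x.1 (b x) (hbW x)
        refine ⟨c, fun y hy => ?_⟩
        have hyW : b y ∈ W x.1 := by
          have h4 := hbW y
          rw [hy] at h4
          exact h4
        by_cases hxy : x = y
        · rw [← hxy]
          exact hc
        obtain ⟨c', hc'⟩ := eigen (anti halt) hnd hlarge Δ hΔ P hP x.1 (b y) hyW
        obtain ⟨c'', hc''⟩ := eigen (anti halt) hnd hlarge Δ hΔ P hP x.1 (b x + b y)
          ((W x.1).add_mem (hbW x) hyW)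
        rw [map_add, hc, hc', smul_add] at hc''
        have h5 := congrArg (fun v => b.repr v x) hc''
        have h6 := congrArg (fun v => b.repr v y) hc''
        simp only [map_add, map_smul, Finsupp.add_apply, Finsupp.smul_apply, Basis.repr_self,
          Finsupp.single_eq_same, Finsupp.single_eq_of_ne hxy, Finsupp.single_eq_of_ne
          (Ne.symm hxy), smul_eq_mul, mul_one, mul_zero, add_zero, zero_add] at h5 h6
        rw [hc', h6, ← h5]
      · refine ⟨0, fun x hx => ?_⟩
        exact absurd ⟨⟨x, hx⟩⟩ hne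
    choose c hc using h3
    exact ⟨c, fun x => hc x.1 x rfl⟩
  · intro x hx
    exact hb0 x (of_decide_eq_true hx)

end Pool.Agent.K6.H94.CO
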