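import Mathlib
import Pool.Agent.K6.H94.CO.Lag

/-!
# Stable spaces of forms which vanish on a Lagrangian subspace are contained in the ideal generated by
the forms of degree two
-/

set_option linter.unusedSectionVars false

namespace Pool.Agent.K6.H94.CO

open Module Pool.Agent.W529.Ta Pool.Agent.H204R3.SP Pool.Agent.H204R3.GP Pool.Agent.K6.H94.BI
  Pool.Agent.Y128.GT

variable {K : Type} [Field K] [CharZero K] {V : Type} [AddCommGroup V] [Module K V]
  [FiniteDimensional K V] {Γ : Type} [Group Γ] {ρ : Representation K Γ V} {χ : Γ →* K}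
  {ι Q : Type} [Fintype ι] [DecidableEq ι] [Fintype Q] [DecidableEq Q]

/-- The base lemma of `Pool.Agent.Y128.GT.Base`, with another hypothesis on the projection. -/
theorem base_of_mem (Fr : Frame ρ χ ι Q) {m : ℕ}
    (P : Module.End K (MultilinearMap K (fun _ : Fin m => V) K))
    (hPT : formOf Fr.ω m P ∈ Submodule.span K (PT ρ χ m))
    (hvan : ∀ φ, ∀ c : Fin m → ι, (∀ k, Fr.sg (c k) = true) → P φ (fun k => Fr.e (c k)) = 0)
    (φ : MultilinearMap K (fun _ : Fin m => V) K) : P φ ∈ IJ ρ χ 1 (Fin m) := by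
  classical
  obtain ⟨Φ1, h1, Φ2, h2, h12⟩ := Submodule.mem_sup.1
    ((Submodule.span_le.2 PT_le) hPT)
  have hpe : ∀ x y, pe x (formOf Fr.ω m P) y = P (theta Fr.ω m x) y := by
    intro x y
    rw [pe_apply, formOf_apply]
    rfl
  have hvan2 : ∀ (x : Fin m → V) (c : Fin m → ι), (∀ k, Fr.sg (c k) = true) →
      pe x Φ2 (fun k => Fr.e (c k)) = 0 := by
    intro x c hc
    have h3 := hpe x (fun k => Fr.e (c k))
    rw [hvan _ c hc, ← h12, map_add] at h3
    change pe x Φ1 _ + pe x Φ2 _ = 0 at h3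
    rwa [Fr.one_van (h1 x) c hc, zero_add] at h3
  have h3 : ∀ x, P (theta Fr.ω m x) ∈ IJ ρ χ 1 (Fin m) := by
    intro x
    have h4 : P (theta Fr.ω m x) = pe x (formOf Fr.ω m P) := by
      ext y
      rw [hpe]
    rw [h4, ← h12, map_add]
    exact Submodule.add_mem _ (h1 x) (Fr.sft h2 hvan2 x)
  obtain ⟨g, hg⟩ := LinearMap.exists_rightInverse_of_surjective (IJ ρ χ 1 (Fin m)).mkQ
    (Submodule.range_mkQ _)
  have h4 : (g.comp (IJ ρ χ 1 (Fin m)).mkQ).comp P = 0 := by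
    refine ext_theta Fr.e Fr.inv_inv Fr.jj_ne Fr.ω Fr.hω m _ _ fun w => ?_
    have h5 : (IJ ρ χ 1 (Fin m)).mkQ (P (theta Fr.ω m w)) = 0 :=
      (Submodule.Quotient.mk_eq_zero _).2 (h3 w)
    rw [LinearMap.comp_apply, LinearMap.comp_apply, h5, map_zero, LinearMap.zero_apply]
  have h5 : g ((IJ ρ χ 1 (Fin m)).mkQ (P φ)) = 0 := congrArg (fun f => f φ) h4
  have h6 := congrArg (IJ ρ χ 1 (Fin m)).mkQ h5
  have h7 := congrArg (fun f => f ((IJ ρ χ 1 (Fin m)).mkQ (P φ))) hg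
  rw [map_zero] at h6
  exact (Submodule.Quotient.mk_eq_zero _).1 (h7.symm.trans h6)

/-- The derivations along the symplectic Lie algebra of a subspace, on a basis. -/
theorem dF_zero_of_basis (ω : V →ₗ[K] V →ₗ[K] K) {κ : Type*} [Fintype κ] [DecidableEq κ]
    (φ : MultilinearMap K (fun _ : κ => V) K) (T : Set V)
    (h : ∀ a ∈ T, ∀ b ∈ T, dF (SS ω a b) φ = 0) :
    ∀ u ∈ Submodule.span K T, ∀ v ∈ Submodule.span K T, dF (SS ω u v) φ = 0 := by
  have hadd : ∀ u u' v : V, SS ω (u + u') v = SS ω u v + SS ω u' v := by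
    intro u u' v
    ext x
    rw [SS_apply, LinearMap.add_apply, SS_apply, SS_apply, map_add, LinearMap.add_apply]
    module
  have hsmul : ∀ (c : K) (u v : V), SS ω (c • u) v = c • SS ω u v := by
    intro c u v
    ext x
    rw [SS_apply, LinearMap.smul_apply, SS_apply, map_smul, LinearMap.smul_apply, smul_eq_mul]
    module
  have hzero : ∀ v : V, SS ω 0 v = 0 := by
    intro v
    have h1 := hsmul 0 0 v
    rwa [zero_smul, zero_smul] at h1
  have h1 : ∀ a ∈ T, ∀ u ∈ Submodule.span K T, dF (SS ω u a) φ = 0 := by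
    intro a ha u hu
    induction hu using Submodule.span_induction with
    | mem b hb => exact h b hb a ha
    | zero => rw [hzero, dF_zero]
    | add u v _ _ hu hv => rw [hadd, dF_add, hu, hv, add_zero]
    | smul c u _ hu => rw [hsmul, dF_smul, hu, smul_zero]
  intro u hu v hv
  induction hu using Submodule.span_induction with
  | mem b hb =>
    rw [SS_comm]
    exact h1 b hb v hv
  | zero => rw [hzero, dF_zero]
  | add u w _ _ hu hw => rw [hadd, dF_add, hu, hw, add_zero]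
  | smul c u _ hu => rw [hsmul, dF_smul, hu, smul_zero]

theorem ideal_mem (ω : V →ₗ[K] V →ₗ[K] K)
    (halt : ∀ v, ω v v = 0) (hnd : ∀ u, (∀ v, ω v u = 0) → u = 0)
    (hωρ : ∀ s u v, ω (ρ s u) (ρ s v) = χ s * ω u v) (W : Q → Submodule K V)
    (hspan : ⨆ i, W i = ⊤) (horth : ∀ i j, i ≠ j → ∀ u ∈ W i, ∀ v ∈ W j, ω u v = 0)
    (hstab : ∀ i s, ∀ v ∈ W i, ρ s v ∈ W i)
    (Fr : Frame ρ χ ι Q) (hFω : Fr.ω = ω) (hFW : ∀ x, Fr.e x ∈ W (Fr.cls x))
    (hWF : ∀ i, W i ≤ Submodule.span K (Fr.e '' {x | Fr.cls x = i})) {m : ℕ}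
    (U : Submodule K (MultilinearMap K (fun _ : Fin m => V) K))
    (hU : ∀ i, ∀ u ∈ W i, ∀ v ∈ W i, ∀ f ∈ U, dF (SS ω u v) f ∈ U)
    (hvan : ∀ f ∈ U, ∀ c : Fin m → ι, (∀ k, Fr.sg (c k) = true) → f (fun k => Fr.e (c k)) = 0) :
    U ≤ IJ ρ χ 1 (Fin m) := by
  classical
  subst hFω
  let jq : ι → ℚ := fun x => if Fr.sg x = true then 1 else -1
  have hjq : ∀ x, algebraMap ℚ K (jq x) = jj K Fr.sg x := by
    intro x
    simp only [jq, jj]
    split_ifs
    · rw [map_one]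
    · rw [map_neg, map_one]
  have hjqn : ∀ x, jq (Fr.inv x) = -jq x := by
    intro x
    apply (algebraMap ℚ K).injective
    rw [hjq, map_neg, hjq, Fr.jj_inv]
  have hjq1 : ∀ x, jq x * jq x = 1 := by
    intro x
    simp only [jq]
    split_ifs <;> norm_num
  let S : Set (Matrix (Fin m → ι) (Fin m → ι) ℚ) :=
    {X | ∃ (c : ℚ) (a b : ι), Fr.cls a = Fr.cls b ∧ X = c • XX Fr.inv jq a b}
  have hS : ∀ X ∈ S, X.transpose ∈ S := by
    rintro _ ⟨c, a, b, h, rfl⟩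
    refine ⟨c * (-(jq a * jq b)), Fr.inv b, Fr.inv a, by rw [Fr.cls_inv, Fr.cls_inv, h], ?_⟩
    rw [Matrix.transpose_smul, XX_transpose Fr.inv_inv hjqn hjq1, smul_smul]
  obtain ⟨P, hP1, hP2, hP3⟩ := exists_proj_of_transpose (Ω := K) S hS
    (U.map (coefE Fr.e).toLinearMap) (by
    rintro _ ⟨c, a, b, h, rfl⟩ _ ⟨φ, hφ, rfl⟩
    rw [toE_smul, LinearMap.smul_apply]
    refine Submodule.smul_mem _ _ ⟨dF (SS Fr.ω (Fr.e a) (Fr.e b)) φ,
      hU (Fr.cls a) _ (hFW a) _ (by rw [h]; exact hFW b) φ hφ, ?_⟩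
    exact coef_dF Fr.e Fr.ω Fr.hω hjq a b φ)
  let P' : Module.End K (MultilinearMap K (fun _ : Fin m => V) K) :=
    (coefE Fr.e).symm.toLinearMap.comp (P.comp (coefE Fr.e).toLinearMap)
  have hP'1 : ∀ φ, P' φ ∈ U := by
    intro φ
    obtain ⟨ψ, hψ, h⟩ := hP1 (coefE Fr.e φ)
    change (coefE Fr.e).symm (P (coefE Fr.e φ)) ∈ U
    rw [← h]
    change (coefE Fr.e).symm (coefE Fr.e ψ) ∈ U
    rw [LinearEquiv.symm_apply_apply]
    exact hψ
  have hP'2 : ∀ φ ∈ U, P' φ = φ := by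
    intro φ hφ
    change (coefE Fr.e).symm (P (coefE Fr.e φ)) = φ
    have h1 : P (coefE Fr.e φ) = coefE Fr.e φ := hP2 _ ⟨φ, hφ, rfl⟩
    rw [h1, LinearEquiv.symm_apply_apply]
  have hP'3 : ∀ a b, Fr.cls a = Fr.cls b → ∀ φ,
      P' (dF (SS Fr.ω (Fr.e a) (Fr.e b)) φ) = dF (SS Fr.ω (Fr.e a) (Fr.e b)) (P' φ) := by
    intro a b h φ
    change (coefE Fr.e).symm (P (coefE Fr.e (dF (SS Fr.ω (Fr.e a) (Fr.e b)) φ))) =
      dF (SS Fr.ω (Fr.e a) (Fr.e b)) ((coefE Fr.e).symm (P (coefE Fr.e φ)))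
    rw [coef_dF Fr.e Fr.ω Fr.hω hjq a b φ, hP3 _ ⟨1, a, b, h, (one_smul _ _).symm⟩]
    rw [LinearEquiv.symm_apply_eq, coef_dF Fr.e Fr.ω Fr.hω hjq a b, LinearEquiv.apply_symm_apply]
  have hsp : ∀ a b u w, Fr.ω (SS Fr.ω a b u) w + Fr.ω u (SS Fr.ω a b w) = 0 := by
    intro a b u w
    rw [SS_apply, SS_apply, map_add, map_add, LinearMap.add_apply, map_smul, map_smul,
      LinearMap.smul_apply, LinearMap.smul_apply, map_smul, map_smul, smul_eq_mul, smul_eq_mul,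
      smul_eq_mul, smul_eq_mul, Fr.anti u b, Fr.anti u a]
    ring
  have hPT : formOf Fr.ω m P' ∈ Submodule.span K (PT ρ χ m) := by
    refine mem_PT Fr.ω halt hnd W hspan horth ρ χ hωρ hstab _ fun i u hu v hv x => ?_
    have h1 := dF_zero_of_basis Fr.ω (formOf Fr.ω m P') (Fr.e '' {x | Fr.cls x = i}) (by
      rintro _ ⟨a, ha, rfl⟩ _ ⟨b, hb, rfl⟩
      have ha' : Fr.cls a = i := ha
      have hb' : Fr.cls b = i := hb
      refine (kills_iff _ _).1 (kills_formOf Fr.ω m P' (hsp _ _) fun φ => ?_)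
      exact hP'3 a b (ha'.trans hb'.symm) φ) u (hWF i hu) v (hWF i hv)
    have h2 := congrArg (fun f : MultilinearMap K (fun _ : Fin m × Fin 2 => V) K => f x) h1
    simp only [dF_apply] at h2
    exact h2
  intro f hf
  rw [← hP'2 f hf]
  exact base_of_mem Fr P' hPT (fun φ c hc => hvan _ (hP'1 φ) c hc) f

end Pool.Agent.K6.H94.CO
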