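import Mathlib
import Pool.Agent.K6.H94.CO.Idl

/-!
# The components of an equivariant multilinear map of high degree belong to the ideal generated by the
forms of degree two
-/

set_option linter.unusedSectionVars false

namespace Pool.Agent.K6.H94.CO

open Module Pool.Agent.W529.Ta Pool.Agent.H204R3.SP Pool.Agent.H204R3.GP Pool.Agent.K6.H94.BI
  Pool.Agent.Y128.GT

/-- A multilinear map which is equivariant under a subgroup of finite index, up to a power of the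
character. -/
def IsTw {K : Type*} [Field K] {V : Type*} [AddCommGroup V] [Module K V]
    {M : Type*} [AddCommGroup M] [Module K M] {Γ : Type*} [Group Γ]
    (ρ : Representation K Γ V) (τ : Representation K Γ M) (χ : Γ →* K) (m : ℕ) {κ : Type*}
    (φ : MultilinearMap K (fun _ : κ => V) M) : Prop :=
  ∃ Δ : Subgroup Γ, Δ.FiniteIndex ∧ ∀ s ∈ Δ, ∀ v : κ → V,
    τ s (φ v) = χ s ^ m • φ (fun k => ρ s (v k))

variable {K : Type} [Field K] [CharZero K] {V : Type} [AddCommGroup V] [Module K V]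
  [FiniteDimensional K V] {M : Type*} [AddCommGroup M] [Module K M] {Γ : Type} [Group Γ]
  {ρ : Representation K Γ V} {τ : Representation K Γ M} {χ : Γ →* K}
  {ι : Type} [Fintype ι] [DecidableEq ι]

theorem chi_ne (χ : Γ →* K) (s : Γ) : χ s ≠ 0 := by
  intro h
  have h1 : χ s * χ s⁻¹ = 1 := by rw [← map_mul, mul_inv_cancel, map_one]
  rw [h, zero_mul] at h1
  exact zero_ne_one h1

theorem mem_ideal_fin (ω : V →ₗ[K] V →ₗ[K] K)
    (halt : ∀ v, ω v v = 0) (hnd : ∀ u, (∀ v, ω v u = 0) → u = 0)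
    (hωρ : ∀ s u v, ω (ρ s u) (ρ s v) = χ s * ω u v) (W : ι → Submodule K V)
    (hspan : ⨆ i, W i = ⊤) (horth : ∀ i j, i ≠ j → ∀ u ∈ W i, ∀ v ∈ W j, ω u v = 0)
    (hstab : ∀ i s, ∀ v ∈ W i, ρ s v ∈ W i) (hlarge : IsLarge ρ ω W) {n : ℕ}
    (hco : HasCocharacter ρ τ n) {c m : ℕ} (φ : MultilinearMap K (fun _ : Fin c => V) M)
    (hφ : IsTw ρ τ χ m φ) (hcard : n ≤ c) (l : M →ₗ[K] K) :
    l.compMultilinearMap φ ∈ IJ ρ χ 1 (Fin c) := by
  classical
  obtain ⟨Δ, hΔ, hφ⟩ := hφ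
  obtain ⟨N, e, a, P, hN, he, he0, he1, hsum, hidem, hort, hclo⟩ := hco
  have hx := hclo Δ hΔ 2 two_ne_zero
  have hee : ∀ u, e (e u) = e u := fun u => congrArg (fun f : End K V => f u) he
  -- powers of two
  have hinj : ∀ x y : ℕ, (2 : K) ^ x = 2 ^ y → x = y := by
    intro x y h
    have h1 : (2 : K) ^ (x : ℤ) = 2 ^ (y : ℤ) := by
      rw [zpow_natCast, zpow_natCast]
      exact h
    exact_mod_cast two_zpow_inj h1
  have hc0 : (2 : K) ^ N ≠ 0 := pow_ne_zero _ two_ne_zero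
  have hc1 : (2 : K) ^ N ≠ 1 := by
    intro h
    have := hinj N 0 (by rw [h, pow_zero])
    omega
  have hc2 : ((2 : K) ^ N) ^ 2 ≠ 1 := by
    intro h
    have := hinj (N * 2) 0 (by rw [pow_mul, h, pow_zero])
    omega
  have hg : InClosure K {g : End K V | ∃ s ∈ Δ, g = ρ s} (1 + ((2 : K) ^ N - 1) • e) :=
    closure_fst hx fun s hs => by
      obtain ⟨s, hs, rfl⟩ := hs
      exact ⟨s, hs, rfl⟩
  obtain ⟨hi1, hi2⟩ := isotropic halt hnd hωρ (fun g hg => by
    obtain ⟨s, _, rfl⟩ := hg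
    exact ⟨s, rfl⟩) he he0 he1 hc0 hc1 hc2 hg
  have heW : ∀ i, ∀ v ∈ W i, e v ∈ W i := by
    intro i v hv
    have h1 := closure_map hg (W i) (W i) (by
      rintro _ ⟨s, _, rfl⟩ v hv
      exact hstab i s v hv) v hv
    change v + ((2 : K) ^ N - 1) • e v ∈ W i at h1
    have h2 := (W i).sub_mem h1 hv
    rw [add_sub_cancel_left] at h2
    have h3 := (W i).smul_mem ((2 : K) ^ N - 1)⁻¹ h2
    rwa [smul_smul, inv_mul_cancel₀ (sub_ne_zero.2 hc1), one_smul] at h3
  -- the space of the components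
  let T : (M →ₗ[K] K) →ₗ[K] MultilinearMap K (fun _ : Fin c => V) K :=
    { toFun := fun l => l.compMultilinearMap φ
      map_add' := fun _ _ => rfl
      map_smul' := fun _ _ => rfl }
  let U : Submodule K (MultilinearMap K (fun _ : Fin c => V) K) := LinearMap.range T
  have hU : ∀ s ∈ Δ, ∀ f ∈ U, TT (ρ s) f ∈ U := by
    rintro s hs _ ⟨l, rfl⟩
    refine ⟨(χ s ^ m)⁻¹ • l.comp (τ s), ?_⟩
    ext v
    change (χ s ^ m)⁻¹ * l (τ s (φ v)) = l (φ (fun k => ρ s (v k)))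
    rw [hφ s hs, map_smul, smul_eq_mul, inv_mul_cancel_left₀ (pow_ne_zero _ (chi_ne χ s))]
  have hU' : ∀ i, ∀ u ∈ W i, ∀ v ∈ W i, ∀ f ∈ U, dF (SS ω u v) f ∈ U :=
    fun i u hu v hv => stable_SS halt hlarge Δ hΔ U hU i u v hu hv
  rcases vanish halt hnd hωρ φ m Δ hφ hN he he0 he1 hsum hidem hort hx
    (by rw [Fintype.card_fin]; exact hcard) with hv | hv
  · obtain ⟨k, Fr, hF1, hF2, hF3, hF4⟩ := exists_frame ω halt hnd hωρ W hspan horth hstab hlarge e
      he hi1 hi2 heW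
    refine ideal_mem ω halt hnd hωρ W hspan horth hstab Fr hF1 hF2 hF3 U hU' ?_ ⟨l, rfl⟩
    rintro _ ⟨l, rfl⟩ x hx
    change l (φ (fun k => Fr.e (x k))) = 0
    rw [hv _ fun k => hF4 _ (hx k), map_zero]
  · obtain ⟨k, Fr, hF1, hF2, hF3, hF4⟩ := exists_frame ω halt hnd hωρ W hspan horth hstab hlarge
      (1 - e) (by rw [mul_sub, sub_mul, sub_mul, he]; simp) hi2 (by
        intro u v
        have h1 : ∀ u : V, u - (1 - e : End K V) u = e u := by
          intro u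
          rw [LinearMap.sub_apply, Module.End.one_apply]
          abel
        rw [h1, h1]
        exact hi1 u v) (fun i v hv => (W i).sub_mem hv (heW i v hv))
    refine ideal_mem ω halt hnd hωρ W hspan horth hstab Fr hF1 hF2 hF3 U hU' ?_ ⟨l, rfl⟩
    rintro _ ⟨l, rfl⟩ x hx
    change l (φ (fun k => Fr.e (x k))) = 0
    rw [hv _ fun k => ?_, map_zero]
    have h1 := hF4 _ (hx k)
    rw [LinearMap.sub_apply, Module.End.one_apply] at h1
    exact sub_eq_self.1 h1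

/-- **The components of an equivariant multilinear map of degree at least `n` are combinations of
products with forms of degree two.** -/
theorem mem_ideal (ω : V →ₗ[K] V →ₗ[K] K)
    (halt : ∀ v, ω v v = 0) (hnd : ∀ u, (∀ v, ω v u = 0) → u = 0)
    (hωρ : ∀ s u v, ω (ρ s u) (ρ s v) = χ s * ω u v) (W : ι → Submodule K V)
    (hspan : ⨆ i, W i = ⊤) (horth : ∀ i j, i ≠ j → ∀ u ∈ W i, ∀ v ∈ W j, ω u v = 0)
    (hstab : ∀ i s, ∀ v ∈ W i, ρ s v ∈ W i) (hlarge : IsLarge ρ ω W) {n : ℕ}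
    (hco : HasCocharacter ρ τ n) {κ : Type} [Fintype κ] [DecidableEq κ] {m : ℕ}
    (φ : MultilinearMap K (fun _ : κ => V) M)
    (hφ : IsTw ρ τ χ m φ) (hcard : n ≤ Fintype.card κ) (l : M →ₗ[K] K) :
    l.compMultilinearMap φ ∈ IJ ρ χ 1 κ := by
  classical
  let f : κ ≃ Fin (Fintype.card κ) := Fintype.equivFin κ
  refine reindex_one ρ χ f ?_
  have h1 : IsTw ρ τ χ m (φ.domDomCongr f) := by
    obtain ⟨Δ, hΔ, hφ⟩ := hφ
    exact ⟨Δ, hΔ, fun s hs v => hφ s hs _⟩
  exact mem_ideal_fin ω halt hnd hωρ W hspan horth hstab hlarge hco (φ.domDomCongr f) h1 hcard l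

end Pool.Agent.K6.H94.CO
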