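import Mathlib
import Pool.Agent.K6.H94.CO.Mem

/-!
# Contractions of multilinear maps with values in a representation
-/

set_option linter.unusedSectionVars false

namespace Pool.Agent.K6.H94.CO

open Module Pool.Agent.W529.Ta Pool.Agent.H204R3.SP Pool.Agent.H204R3.GP Pool.Agent.K6.H94.BI
  Pool.Agent.Y128.GT

noncomputable section

variable {K : Type} [Field K] [CharZero K] {V : Type} [AddCommGroup V] [Module K V]
  {M : Type*} [AddCommGroup M] [Module K M] {Γ : Type} [Group Γ]
  {ρ : Representation K Γ V} {τ : Representation K Γ M} {χ : Γ →* K}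
  {ι Q : Type} [Fintype ι] [DecidableEq ι] [Fintype Q] [DecidableEq Q]
  {κ : Type} [Fintype κ] [DecidableEq κ]

/-- Extension of a tuple by zero. -/
def ext0 (a b : κ) (v : {l : κ // l ≠ a ∧ l ≠ b} → V) : κ → V :=
  fun l => if h : l ≠ a ∧ l ≠ b then v ⟨l, h⟩ else 0

/-- The values for two variables. -/
def zz (a b : κ) (x y : V) : {l : κ // ¬(l ≠ a ∧ l ≠ b)} → V := fun l => if l.1 = a then x else y

theorem restr_apply {a b : κ} (hab : a ≠ b) (φ : MultilinearMap K (fun _ : κ => V) M) (x y : V)
    (v : {l : κ // l ≠ a ∧ l ≠ b} → V) :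
    φ.domDomRestrict (fun l => l ≠ a ∧ l ≠ b) (zz a b x y) v =
      φ (Function.update (Function.update (ext0 a b v) a x) b y) := by
  rw [MultilinearMap.domDomRestrict_apply]
  congr 1
  funext j
  by_cases hjb : j = b
  · subst hjb
    rw [Function.update_self, dif_neg (fun h => h.2 rfl)]
    exact if_neg hab.symm
  · rw [Function.update_of_ne hjb]
    by_cases hja : j = a
    · subst hja
      rw [Function.update_self, dif_neg (fun h => h.1 rfl)]
      exact if_pos rfl
    · rw [Function.update_of_ne hja, dif_pos ⟨hja, hjb⟩]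
      unfold ext0
      rw [dif_pos ⟨hja, hjb⟩]

theorem ext0_map (a b : κ) (g : End K V) (v : {l : κ // l ≠ a ∧ l ≠ b} → V) :
    (fun l => g (ext0 a b v l)) = ext0 a b (fun l => g (v l)) := by
  funext l
  unfold ext0
  split_ifs
  · rfl
  · rw [map_zero]

theorem update_map (a b : κ) (g : End K V) (w : κ → V) (x y : V) :
    (fun l => g (Function.update (Function.update w a x) b y l)) =
      Function.update (Function.update (fun l => g (w l)) a (g x)) b (g y) := by
  funext l
  by_cases hlb : l = b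
  · subst hlb
    rw [Function.update_self, Function.update_self]
  · rw [Function.update_of_ne hlb, Function.update_of_ne hlb]
    by_cases hla : l = a
    · subst hla
      rw [Function.update_self, Function.update_self]
    · rw [Function.update_of_ne hla, Function.update_of_ne hla]

theorem upd_comm {a b : κ} (hab : a ≠ b) (w : κ → V) (x y : V) :
    Function.update (Function.update w a x) b y = Function.update (Function.update w b y) a x :=
  Function.update_comm (β := fun _ => V) hab x y w

/-- A multilinear map as a bilinear map in two of the variables. -/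
def bil {a b : κ} (hab : a ≠ b) (φ : MultilinearMap K (fun _ : κ => V) M) (w : κ → V) :
    V →ₗ[K] V →ₗ[K] M :=
  LinearMap.mk₂ K (fun x y => φ (Function.update (Function.update w a x) b y))
    (fun x x' y => by
      rw [upd_comm hab, upd_comm hab, upd_comm hab]
      exact φ.map_update_add _ _ _ _)
    (fun c x y => by
      rw [upd_comm hab, upd_comm hab]
      exact φ.map_update_smul _ _ _ _)
    (fun x y y' => φ.map_update_add _ _ _ _)
    (fun c x y => φ.map_update_smul _ _ _ _)

theorem bil_apply {a b : κ} (hab : a ≠ b) (φ : MultilinearMap K (fun _ : κ => V) M) (w : κ → V)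
    (x y : V) : bil hab φ w x y = φ (Function.update (Function.update w a x) b y) := rfl

/-- The product of a bilinear form in two variables and of a multilinear map in the other
variables. -/
def mulM {a b : κ} (hab : a ≠ b) (B : V →ₗ[K] V →ₗ[K] K) :
    MultilinearMap K (fun _ : {l : κ // l ≠ a ∧ l ≠ b} => V) M →ₗ[K]
      MultilinearMap K (fun _ : κ => V) M where
  toFun c := MultilinearMap.mk' (fun v => B (v a) (v b) • c (res a b v))
    (by
      intro v i x y
      by_cases hia : i = a
      · subst hia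
        simp only [Function.update_self, Function.update_of_ne hab.symm, res_update_a, map_add,
          LinearMap.add_apply, add_smul]
      · by_cases hib : i = b
        · subst hib
          simp only [Function.update_self, Function.update_of_ne hab, res_update_b, map_add,
            add_smul]
        · simp only [Function.update_of_ne (Ne.symm hia), Function.update_of_ne (Ne.symm hib)]
          have h := fun x => res_update a b v ⟨i, hia, hib⟩ x
          simp only at h
          rw [h, h, h, MultilinearMap.map_update_add, smul_add])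
    (by
      intro v i c' x
      by_cases hia : i = a
      · subst hia
        simp only [Function.update_self, Function.update_of_ne hab.symm, res_update_a, map_smul,
          LinearMap.smul_apply, smul_eq_mul, mul_smul]
      · by_cases hib : i = b
        · subst hib
          simp only [Function.update_self, Function.update_of_ne hab, res_update_b, map_smul,
            smul_eq_mul, mul_smul]
        · simp only [Function.update_of_ne (Ne.symm hia), Function.update_of_ne (Ne.symm hib)]
          have h := fun x => res_update a b v ⟨i, hia, hib⟩ x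
          simp only at h
          rw [h, h, MultilinearMap.map_update_smul, smul_comm])
  map_add' c d := by
    ext v
    exact smul_add _ _ _
  map_smul' r c := by
    ext v
    change B (v a) (v b) • (r • c (res a b v)) = r • (B (v a) (v b) • c (res a b v))
    rw [smul_comm]

theorem mulM_apply {a b : κ} (hab : a ≠ b) (B : V →ₗ[K] V →ₗ[K] K)
    (c : MultilinearMap K (fun _ : {l : κ // l ≠ a ∧ l ≠ b} => V) M) (v : κ → V) :
    mulM hab B c v = B (v a) (v b) • c (res a b v) := rfl

variable (Fr : Frame ρ χ ι Q)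

/-- The weights of the basis vectors in the contraction. -/
def wt (q : Q) (x : ι) : K := if Fr.cls x = q then jj K Fr.sg x else 0

/-- The contraction of the variables `a` and `b`. -/
def contr (q : Q) (a b : κ) :
    MultilinearMap K (fun _ : κ => V) M →ₗ[K]
      MultilinearMap K (fun _ : {l : κ // l ≠ a ∧ l ≠ b} => V) M where
  toFun φ := ∑ x, wt Fr q x • φ.domDomRestrict (fun l => l ≠ a ∧ l ≠ b)
    (zz a b (Fr.e x) (Fr.e (Fr.inv x)))
  map_add' φ ψ := by
    rw [← Finset.sum_add_distrib]
    refine Finset.sum_congr rfl fun x _ => ?_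
    rw [← smul_add]
    rfl
  map_smul' c φ := by
    rw [RingHom.id_apply, Finset.smul_sum]
    refine Finset.sum_congr rfl fun x _ => ?_
    rw [smul_comm]
    rfl

theorem contr_apply (q : Q) {a b : κ} (hab : a ≠ b) (φ : MultilinearMap K (fun _ : κ => V) M)
    (v : {l : κ // l ≠ a ∧ l ≠ b} → V) : contr Fr q a b φ v =
      ∑ x, wt Fr q x • bil hab φ (ext0 a b v) (Fr.e x) (Fr.e (Fr.inv x)) := by
  change (∑ x, wt Fr q x • φ.domDomRestrict (fun l => l ≠ a ∧ l ≠ b)
    (zz a b (Fr.e x) (Fr.e (Fr.inv x)))) v = _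
  rw [MultilinearMap.sum_apply]
  refine Finset.sum_congr rfl fun x _ => ?_
  rw [MultilinearMap.smul_apply, restr_apply hab, bil_apply]

theorem om_weil (q : Q) (s : Γ) (u v : V) :
    Fr.om q (ρ s u) (ρ s v) = χ s * Fr.om q u v := by
  change Fr.ω (Fr.pr q (ρ s u)) (ρ s v) = χ s * Fr.ω (Fr.pr q u) v
  rw [Fr.pr_comm, Fr.weil]

/-- The bivector of the contraction is multiplied by the similitude factor. -/
theorem bil_sum (q : Q) (s : Γ) (β : V →ₗ[K] V →ₗ[K] M) :
    ∑ x, wt Fr q x • β (ρ s (Fr.e x)) (ρ s (Fr.e (Fr.inv x))) =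
      χ s • ∑ x, wt Fr q x • β (Fr.e x) (Fr.e (Fr.inv x)) := by
  have hinv : ∀ v, ρ s (ρ s⁻¹ v) = v := by
    intro v
    rw [← Module.End.mul_apply, ← map_mul, mul_inv_cancel, map_one]
    rfl
  have e1 : ∀ x, wt Fr q x • β (ρ s (Fr.e x)) (ρ s (Fr.e (Fr.inv x))) =
      ∑ z, β (ρ s ((wt Fr q x * Fr.e.repr (ρ s (Fr.e (Fr.inv x))) z) • Fr.e x)) (Fr.e z) := by
    intro x
    conv_lhs => rw [← Fr.e.sum_repr (ρ s (Fr.e (Fr.inv x)))]
    rw [map_sum, Finset.smul_sum]
    refine Finset.sum_congr rfl fun z _ => ?_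
    rw [map_smul, map_smul, map_smul, LinearMap.smul_apply, mul_smul]
  have e2 : ∀ z, ∑ x, (wt Fr q x * Fr.e.repr (ρ s (Fr.e (Fr.inv x))) z) • Fr.e x =
      (χ s * jj K Fr.sg (Fr.inv z)) • Fr.pr q (ρ s⁻¹ (Fr.e (Fr.inv z))) := by
    intro z
    set y := ρ s⁻¹ (Fr.e (Fr.inv z)) with hy
    have e3 : ∀ x, wt Fr q x * Fr.e.repr (ρ s (Fr.e (Fr.inv x))) z =
        (χ s * jj K Fr.sg (Fr.inv z)) * (if Fr.cls x = q then Fr.e.repr y x else 0) := by
      intro x
      have e4 : Fr.e.repr (ρ s (Fr.e (Fr.inv x))) z =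
          jj K Fr.sg (Fr.inv z) * (χ s * Fr.ω y (Fr.e (Fr.inv x))) := by
        rw [Fr.repr_eq]
        congr 1
        conv_lhs => rw [← hinv (Fr.e (Fr.inv z))]
        rw [Fr.weil]
      have e5 : Fr.e.repr y x = jj K Fr.sg x * Fr.ω y (Fr.e (Fr.inv x)) := by
        rw [Fr.repr_eq, Fr.jj_inv, Fr.anti]
        ring
      rw [e4, e5]
      unfold wt
      split_ifs <;> ring
    rw [Finset.sum_congr rfl fun x _ => by rw [e3 x, mul_smul], ← Finset.smul_sum]
    congr 1
    conv_rhs => rw [← Fr.e.sum_repr (Fr.pr q y)]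
    refine Finset.sum_congr rfl fun x _ => ?_
    rw [Fr.pr_repr]
  rw [Finset.sum_congr rfl fun x _ => e1 x, Finset.sum_comm]
  have e6 : ∀ z, ∑ x, β (ρ s ((wt Fr q x * Fr.e.repr (ρ s (Fr.e (Fr.inv x))) z) • Fr.e x))
      (Fr.e z) = χ s • wt Fr q (Fr.inv z) • β (Fr.e (Fr.inv z)) (Fr.e z) := by
    intro z
    rw [← LinearMap.sum_apply, ← map_sum, ← map_sum, e2, map_smul, ← Fr.pr_comm, hinv, Fr.pr_e]
    unfold wt
    split_ifs
    · rw [map_smul, LinearMap.smul_apply, mul_smul]
    · rw [smul_zero, map_zero, LinearMap.zero_apply, zero_smul, smul_zero]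
  rw [Finset.sum_congr rfl fun z _ => e6 z, ← Finset.smul_sum]
  congr 1
  refine Fintype.sum_equiv (Function.Involutive.toPerm Fr.inv Fr.inv_inv) _ _ fun z => ?_
  change _ = wt Fr q (Fr.inv z) • β (Fr.e (Fr.inv z)) (Fr.e (Fr.inv (Fr.inv z)))
  rw [Fr.inv_inv]

variable (ρ τ χ) in
/-- The multilinear maps which are equivariant under a given subgroup up to a power of the
character. -/
def TwS (Δ : Subgroup Γ) (m : ℕ) (κ : Type) [Fintype κ] [DecidableEq κ] :
    Submodule K (MultilinearMap K (fun _ : κ => V) M) where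
  carrier := {φ | ∀ s ∈ Δ, ∀ v : κ → V, τ s (φ v) = χ s ^ m • φ (fun k => ρ s (v k))}
  zero_mem' := fun s _ v => by
    rw [MultilinearMap.zero_apply, MultilinearMap.zero_apply, map_zero, smul_zero]
  add_mem' := fun ha hb s hs v => by
    rw [MultilinearMap.add_apply, MultilinearMap.add_apply, map_add, ha s hs, hb s hs, smul_add]
  smul_mem' := fun c a ha s hs v => by
    rw [MultilinearMap.smul_apply, MultilinearMap.smul_apply, map_smul, ha s hs, smul_comm]

theorem contr_mem (q : Q) {a b : κ} (hab : a ≠ b) {Δ : Subgroup Γ} {m : ℕ}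
    {φ : MultilinearMap K (fun _ : κ => V) M} (hφ : φ ∈ TwS ρ τ χ Δ m κ) :
    contr Fr q a b φ ∈ TwS ρ τ χ Δ (m + 1) {l : κ // l ≠ a ∧ l ≠ b} := by
  intro s hs v
  rw [contr_apply Fr q hab, contr_apply Fr q hab, map_sum]
  have e1 : ∀ x, τ s (wt Fr q x • bil hab φ (ext0 a b v) (Fr.e x) (Fr.e (Fr.inv x))) =
      χ s ^ m • wt Fr q x • bil hab φ (ext0 a b fun l => ρ s (v l)) (ρ s (Fr.e x))
        (ρ s (Fr.e (Fr.inv x))) := by
    intro x
    rw [map_smul, bil_apply, bil_apply, hφ s hs, update_map, ext0_map, smul_comm]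
  rw [Finset.sum_congr rfl fun x _ => e1 x, ← Finset.smul_sum, bil_sum, smul_smul, ← pow_succ]

theorem mulM_mem (q : Q) {a b : κ} (hab : a ≠ b) {Δ : Subgroup Γ} {m : ℕ}
    {c : MultilinearMap K (fun _ : {l : κ // l ≠ a ∧ l ≠ b} => V) M}
    (hc : c ∈ TwS ρ τ χ Δ (m + 1) {l : κ // l ≠ a ∧ l ≠ b}) :
    mulM hab (Fr.om q) c ∈ TwS ρ τ χ Δ m κ := by
  intro s hs v
  rw [mulM_apply, mulM_apply, map_smul, hc s hs, om_weil, smul_smul, smul_smul, pow_succ]
  have h1 : res a b (fun k => ρ s (v k)) = fun l => ρ s (res a b v l) := rfl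
  rw [h1]
  congr 1
  ring

/-- The operator attached to the contractions. -/
def DD' : Module.End K (MultilinearMap K (fun _ : κ => V) M) :=
  ∑ j : Q × {p : κ × κ // p.1 ≠ p.2},
    (mulM j.2.2 (Fr.om j.1)).comp (contr Fr j.1 j.2.1.1 j.2.1.2)

theorem DD'_apply (φ : MultilinearMap K (fun _ : κ => V) M) : DD' Fr φ =
    ∑ j : Q × {p : κ × κ // p.1 ≠ p.2}, mulM j.2.2 (Fr.om j.1) (contr Fr j.1 j.2.1.1 j.2.1.2 φ) := by
  unfold DD'
  rw [LinearMap.sum_apply]
  rfl

theorem DD'_mem {Δ : Subgroup Γ} {m : ℕ} {φ : MultilinearMap K (fun _ : κ => V) M}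
    (hφ : φ ∈ TwS ρ τ χ Δ m κ) : DD' Fr φ ∈ TwS ρ τ χ Δ m κ := by
  rw [DD'_apply]
  exact Submodule.sum_mem _ fun j _ => mulM_mem Fr j.1 j.2.2 (contr_mem Fr j.1 j.2.2 hφ)

end

end Pool.Agent.K6.H94.CO
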