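import Mathlib

/-!
# Sums of symmetric rational matrices which are multiples of projections
-/

namespace Pool.Agent.K6.H94.CO

open Matrix

variable {N : Type*} [Fintype N] [DecidableEq N]

/-- A symmetric rational matrix has a generalized inverse which is a polynomial in it. -/
theorem exists_ginv (D : Matrix N N ℚ) (hD : D.transpose = D) :
    ∃ E ∈ Algebra.adjoin ℚ {D}, D * E * D = D := by
  have hker : ∀ x : Matrix N N ℚ, D * (D * x) = 0 → D * x = 0 := by
    intro x hx
    have h1 : (D * x).transpose * (D * x) = 0 := by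
      rw [Matrix.transpose_mul, hD, Matrix.mul_assoc, hx, Matrix.mul_zero]
    have h2 : ∀ j, (D * x).col j ⬝ᵥ (D * x).col j = 0 := by
      intro j
      have h3 := congrFun (congrFun h1 j) j
      rw [Matrix.mul_apply] at h3
      exact h3
    ext i j
    have h3 := dotProduct_self_eq_zero.1 (h2 j)
    exact congrFun h3 i
  have hint : IsIntegral ℚ D := Algebra.IsIntegral.isIntegral D
  let m := minpoly ℚ D
  have hm : Polynomial.aeval D m = 0 := minpoly.aeval ℚ D
  have hm0 : m ≠ 0 := minpoly.ne_zero hint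
  have hmem : ∀ q : Polynomial ℚ, Polynomial.aeval D q ∈ Algebra.adjoin ℚ {D} := fun q =>
    Polynomial.aeval_mem_adjoin_singleton ℚ D
  have key : ∀ r : Polynomial ℚ, r.coeff 0 ≠ 0 → D * Polynomial.aeval D r = 0 →
      ∃ E ∈ Algebra.adjoin ℚ {D}, D * E * D = D := by
    intro r hr0 hr
    have h1 : r = Polynomial.X * r.divX + Polynomial.C (r.coeff 0) :=
      (Polynomial.X_mul_divX_add r).symm
    refine ⟨(-(r.coeff 0)⁻¹) • Polynomial.aeval D r.divX, Subalgebra.smul_mem _ (hmem _) _, ?_⟩
    have h2 : D * (D * Polynomial.aeval D r.divX + r.coeff 0 • (1 : Matrix N N ℚ)) = 0 := by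
      rw [h1] at hr
      rw [map_add, map_mul, Polynomial.aeval_X, Polynomial.aeval_C] at hr
      rw [Algebra.algebraMap_eq_smul_one] at hr
      convert hr using 4
    have hcomm : Polynomial.aeval D r.divX * D = D * Polynomial.aeval D r.divX := by
      have h3 := congrArg (Polynomial.aeval D) (mul_comm r.divX Polynomial.X)
      rw [map_mul, map_mul, Polynomial.aeval_X] at h3
      exact h3
    rw [mul_add, mul_smul_comm, mul_one] at h2
    have h3 : D * (D * Polynomial.aeval D r.divX) = -(r.coeff 0 • D) := eq_neg_of_add_eq_zero_left h2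
    rw [mul_smul_comm, smul_mul_assoc, mul_assoc, hcomm, h3, smul_neg, neg_smul, neg_neg, smul_smul,
      inv_mul_cancel₀ hr0, one_smul]
  by_cases hc : m.coeff 0 = 0
  · -- `m = X r`
    obtain ⟨r, hr⟩ := Polynomial.X_dvd_iff.2 hc
    have hr1 : D * Polynomial.aeval D r = 0 := by
      have h1 := hm
      rw [hr, map_mul, Polynomial.aeval_X] at h1
      exact h1
    refine key r ?_ hr1
    intro hc'
    obtain ⟨t, ht⟩ := Polynomial.X_dvd_iff.2 hc'
    rw [ht, map_mul, Polynomial.aeval_X] at hr1
    have h2 := hker _ hr1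
    have h3 : Polynomial.aeval D r = 0 := by
      rw [ht, map_mul, Polynomial.aeval_X]
      exact h2
    have hr0 : r ≠ 0 := by
      rintro rfl
      rw [mul_zero] at hr
      exact hm0 hr
    have h4 := minpoly.degree_le_of_ne_zero ℚ D hr0 h3
    have h5 : m.degree = r.degree + 1 := by
      rw [hr, mul_comm, Polynomial.degree_mul_X]
    change m.degree ≤ _ at h4
    rw [h5, Polynomial.degree_eq_natDegree hr0] at h4
    have h6 : ((r.natDegree : ℕ) : WithBot ℕ) + 1 = ((r.natDegree + 1 : ℕ) : WithBot ℕ) := by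
      push_cast
      rfl
    rw [h6, Nat.cast_le] at h4
    omega
  · refine key m hc ?_
    rw [hm, mul_zero]

/-- Generalized inverses of the sum of a family of multiples of orthogonal projections. -/
theorem exists_inv {J : Type*} [Fintype J] (C : J → Matrix N N ℚ) (c : J → ℚ)
    (hsymm : ∀ j, (C j).transpose = C j) (hsq : ∀ j, C j * C j = c j • C j)
    (hc : ∀ j, 0 ≤ c j) :
    ∃ E ∈ Algebra.adjoin ℚ {∑ j, C j}, ∀ j, (∑ j, C j) * E * C j = C j := by
  classical
  set D := ∑ j, C j with hDdef
  have hD : D.transpose = D := by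
    rw [hDdef, Matrix.transpose_sum]
    exact Finset.sum_congr rfl fun j _ => hsymm j
  obtain ⟨E, hE, hDE⟩ := exists_ginv D hD
  -- the kernel
  have hker : ∀ x : N → ℚ, D *ᵥ x = 0 → ∀ j, C j *ᵥ x = 0 := by
    intro x hx
    have h1 : ∀ j, c j * (x ⬝ᵥ C j *ᵥ x) = (C j *ᵥ x) ⬝ᵥ (C j *ᵥ x) := by
      intro j
      have h2 : (C j *ᵥ x) ⬝ᵥ (C j *ᵥ x) = x ⬝ᵥ ((C j * C j) *ᵥ x) := by
        rw [← Matrix.mulVec_mulVec, Matrix.dotProduct_mulVec, ← Matrix.mulVec_transpose, hsymm,
          dotProduct_comm]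
      rw [h2, hsq, Matrix.smul_mulVec, dotProduct_smul, smul_eq_mul]
    have h0 : ∀ y : N → ℚ, 0 ≤ y ⬝ᵥ y := fun y => Finset.sum_nonneg fun i _ => mul_self_nonneg _
    have h2 : ∀ j, 0 ≤ x ⬝ᵥ C j *ᵥ x := by
      intro j
      rcases (hc j).eq_or_lt with h | h
      · have h3 := h1 j
        rw [← h, zero_mul] at h3
        have h4 := dotProduct_self_eq_zero.1 h3.symm
        rw [h4, dotProduct_zero]
      · have h3 := h1 j
        have h4 := h0 (C j *ᵥ x)
        rw [← h3] at h4
        exact nonneg_of_mul_nonneg_right h4 h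
    have h3 : ∑ j, x ⬝ᵥ C j *ᵥ x = 0 := by
      have h4 : x ⬝ᵥ D *ᵥ x = 0 := by rw [hx, dotProduct_zero]
      rw [hDdef, Matrix.sum_mulVec, dotProduct_sum] at h4
      exact h4
    have h4 := (Finset.sum_eq_zero_iff_of_nonneg (fun j _ => h2 j)).1 h3
    intro j
    have h5 := h1 j
    rw [h4 j (Finset.mem_univ _), mul_zero] at h5
    exact dotProduct_self_eq_zero.1 h5.symm
  have hEt : E.transpose = E := by
    rw [Algebra.adjoin_singleton_eq_range_aeval] at hE
    obtain ⟨q, rfl⟩ := hE
    change (Polynomial.aeval D q).transpose = Polynomial.aeval D q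
    clear hDE
    induction q using Polynomial.induction_on' with
    | add p q hp hq => rw [map_add, Matrix.transpose_add, hp, hq]
    | monomial n a =>
      rw [Polynomial.aeval_monomial, Algebra.algebraMap_eq_smul_one, smul_mul_assoc, one_mul,
        Matrix.transpose_smul, Matrix.transpose_pow, hD]
  refine ⟨E, hE, fun j => ?_⟩
  have h1 : C j * (1 - E * D) = 0 := by
    ext a b
    have h2 : D *ᵥ (1 - E * D).col b = 0 := by
      funext i
      have h3 : D * (1 - E * D) = 0 := by
        rw [mul_sub, mul_one, ← mul_assoc, hDE, sub_self]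
      have h4 := congrFun (congrFun h3 i) b
      rw [Matrix.mul_apply] at h4
      exact h4
    have h3 := congrFun (hker _ h2 j) a
    rw [Matrix.mul_apply]
    exact h3
  have h2 := congrArg Matrix.transpose h1
  rw [Matrix.transpose_mul, Matrix.transpose_sub, Matrix.transpose_one, Matrix.transpose_mul, hD,
    hEt, hsymm, Matrix.transpose_zero, sub_mul, one_mul, sub_eq_zero] at h2
  exact h2.symm

end Pool.Agent.K6.H94.CO
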