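import Mathlib
import Pool.Agent.K6.H94.CO.Contr
import Pool.Agent.K6.H94.CO.Rat

/-!
# Equivariant multilinear maps in the ideal generated by the forms of degree two are combinations of
these forms with equivariant coefficients
-/

set_option linter.unusedSectionVars false

namespace Pool.Agent.K6.H94.CO

open Module Pool.Agent.W529.Ta Pool.Agent.H204R3.SP Pool.Agent.H204R3.GP Pool.Agent.K6.H94.BI
  Pool.Agent.Y128.GT Pool.Agent.TH131.GHC

noncomputable section

section act

variable {K : Type*} [Field K] [CharZero K] {M : Type*} [AddCommGroup M] [Module K M]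
  {N : Type*} [Fintype N] [DecidableEq N]

/-- The action of rational matrices on functions with values in a vector space. -/
def act (K : Type*) [Field K] [CharZero K] {M : Type*} [AddCommGroup M] [Module K M]
    {N : Type*} [Fintype N] [DecidableEq N] (A : Matrix N N ℚ) (F : N → M) : N → M :=
  fun I => ∑ J, (algebraMap ℚ K (A I J)) • F J

theorem act_mul (A B : Matrix N N ℚ) (F : N → M) : act K (A * B) F = act K A (act K B F) := by
  funext I
  unfold act
  simp only [Finset.smul_sum]
  rw [Finset.sum_comm]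
  refine Finset.sum_congr rfl fun J _ => ?_
  rw [Matrix.mul_apply, map_sum, Finset.sum_smul]
  refine Finset.sum_congr rfl fun L _ => ?_
  rw [map_mul, mul_smul]

theorem act_add (A B : Matrix N N ℚ) (F : N → M) : act K (A + B) F = act K A F + act K B F := by
  funext I
  unfold act
  rw [Pi.add_apply, ← Finset.sum_add_distrib]
  refine Finset.sum_congr rfl fun J _ => ?_
  rw [Matrix.add_apply, map_add, add_smul]

theorem act_zero (F : N → M) : act K (0 : Matrix N N ℚ) F = 0 := by
  funext I
  unfold act
  rw [Pi.zero_apply]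
  refine Finset.sum_eq_zero fun J _ => ?_
  rw [Matrix.zero_apply, map_zero, zero_smul]

theorem act_sum {ι : Type*} (s : Finset ι) (A : ι → Matrix N N ℚ) (F : N → M) :
    act K (∑ i ∈ s, A i) F = ∑ i ∈ s, act K (A i) F := by
  classical
  induction s using Finset.induction_on with
  | empty => rw [Finset.sum_empty, Finset.sum_empty, act_zero]
  | insert a s ha ih => rw [Finset.sum_insert ha, Finset.sum_insert ha, act_add, ih]

theorem act_scalar (c : ℚ) (F : N → M) :
    act K (algebraMap ℚ (Matrix N N ℚ) c) F = (algebraMap ℚ K c) • F := by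
  funext I
  unfold act
  rw [Finset.sum_eq_single I]
  · rw [Matrix.algebraMap_matrix_apply, if_pos rfl]
    rfl
  · intro J _ hJ
    rw [Matrix.algebraMap_matrix_apply, if_neg (Ne.symm hJ), map_zero, zero_smul]
  · intro h
    exact absurd (Finset.mem_univ _) h

theorem act_smul (A : Matrix N N ℚ) (c : K) (F : N → M) : act K A (c • F) = c • act K A F := by
  funext I
  unfold act
  rw [Pi.smul_apply, Finset.smul_sum]
  refine Finset.sum_congr rfl fun J _ => ?_
  rw [Pi.smul_apply, smul_comm]

theorem act_addF (A : Matrix N N ℚ) (F G : N → M) : act K A (F + G) = act K A F + act K A G := by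
  funext I
  unfold act
  rw [Pi.add_apply, ← Finset.sum_add_distrib]
  refine Finset.sum_congr rfl fun J _ => ?_
  rw [Pi.add_apply, smul_add]

theorem act_zeroF (A : Matrix N N ℚ) : act K A (0 : N → M) = 0 := by
  funext I
  unfold act
  refine Finset.sum_eq_zero fun J _ => ?_
  rw [Pi.zero_apply, smul_zero]

theorem act_smulA (c : ℚ) (A : Matrix N N ℚ) (F : N → M) :
    act K (c • A) F = (algebraMap ℚ K c) • act K A F := by
  funext I
  unfold act
  rw [Pi.smul_apply, Finset.smul_sum]
  refine Finset.sum_congr rfl fun J _ => ?_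
  rw [Matrix.smul_apply, smul_eq_mul, map_mul, mul_smul]

theorem act_comp (A : Matrix N N ℚ) (F : N → M) (l : M →ₗ[K] K) (I : N) :
    l (act K A F I) = act K A (fun J => l (F J)) I := by
  unfold act
  rw [map_sum]
  refine Finset.sum_congr rfl fun J _ => ?_
  rw [map_smul]

end act

variable {K : Type} [Field K] [CharZero K] {V : Type} [AddCommGroup V] [Module K V]
  {M : Type*} [AddCommGroup M] [Module K M] {Γ : Type} [Group Γ]
  {ρ : Representation K Γ V} {τ : Representation K Γ M} {χ : Γ →* K}
  {ι Q : Type} [Fintype ι] [DecidableEq ι] [Fintype Q] [DecidableEq Q]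
  {κ : Type} [Fintype κ] [DecidableEq κ]

/-- Sums over the functions which agree with a given one outside of two arguments. -/
theorem sum_agree {A : Type*} [AddCommMonoid A] {a b : κ} (hab : a ≠ b) (I : κ → ι)
    (G : (κ → ι) → A) :
    ∑ J : κ → ι, (if ∀ l, l ≠ a → l ≠ b → I l = J l then G J else 0) =
      ∑ x, ∑ y, G (Function.update (Function.update I a x) b y) := by
  rw [← Finset.sum_filter, ← Finset.sum_product']
  refine Finset.sum_bij' (fun J _ => (J a, J b))
    (fun p _ => Function.update (Function.update I a p.1) b p.2) ?_ ?_ ?_ ?_ ?_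
  · intro J _
    exact Finset.mem_product.2 ⟨Finset.mem_univ _, Finset.mem_univ _⟩
  · intro p _
    rw [Finset.mem_filter]
    refine ⟨Finset.mem_univ _, fun l ha hb => ?_⟩
    rw [Function.update_of_ne hb, Function.update_of_ne ha]
  · intro J hJ
    rw [Finset.mem_filter] at hJ
    funext l
    by_cases hb : l = b
    · subst hb
      rw [Function.update_self]
    · rw [Function.update_of_ne hb]
      by_cases ha : l = a
      · subst ha
        rw [Function.update_self]
      · rw [Function.update_of_ne ha, hJ.2 l ha hb]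
  · rintro ⟨x, y⟩ _
    simp only [Prod.mk.injEq]
    exact ⟨by rw [Function.update_of_ne hab, Function.update_self], Function.update_self _ _ _⟩
  · intro J hJ
    rw [Finset.mem_filter] at hJ
    congr 1
    funext l
    by_cases hb : l = b
    · subst hb
      rw [Function.update_self]
    · rw [Function.update_of_ne hb]
      by_cases ha : l = a
      · subst ha
        rw [Function.update_self]
      · rw [Function.update_of_ne ha, hJ.2 l ha hb]

variable (Fr : Frame ρ χ ι Q)

/-- The sign as a rational number. -/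
def jqf (x : ι) : ℚ := if Fr.sg x = true then 1 else -1

/-- The matrix of the form with the number `q`. -/
def w2 (q : Q) (x y : ι) : ℚ := if Fr.cls x = q then (if y = Fr.inv x then jqf Fr x else 0) else 0

/-- The matrix of the product of the multiplication with a form and of the contraction. -/
def CC (q : Q) (a b : κ) : Matrix (κ → ι) (κ → ι) ℚ := fun I J =>
  w2 Fr q (I a) (I b) * w2 Fr q (J a) (J b) * (if ∀ l, l ≠ a → l ≠ b → I l = J l then 1 else 0)

/-- The number of the basis vectors in a class, as a sum of squares. -/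
def nn (q : Q) : ℚ := ∑ x, ∑ y, w2 Fr q x y * w2 Fr q x y

theorem nn_nonneg (q : Q) : 0 ≤ nn Fr q :=
  Finset.sum_nonneg fun _ _ => Finset.sum_nonneg fun _ _ => mul_self_nonneg _

theorem CC_symm (q : Q) (a b : κ) : (CC Fr q a b).transpose = CC Fr q a b := by
  ext I J
  rw [Matrix.transpose_apply]
  unfold CC
  have h1 : (∀ l, l ≠ a → l ≠ b → J l = I l) ↔ (∀ l, l ≠ a → l ≠ b → I l = J l) :=
    forall_congr' fun l => forall_congr' fun _ => forall_congr' fun _ => eq_comm
  simp only [h1]
  ring

theorem CC_sq (q : Q) {a b : κ} (hab : a ≠ b) :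
    CC Fr q a b * CC Fr q a b = nn Fr q • CC Fr q a b := by
  ext I J
  rw [Matrix.mul_apply, Matrix.smul_apply, smul_eq_mul]
  have h1 : ∀ L, CC Fr q a b I L * CC Fr q a b L J =
      (if ∀ l, l ≠ a → l ≠ b → I l = L l then
        (w2 Fr q (L a) (L b) * w2 Fr q (L a) (L b)) * CC Fr q a b I J else 0) := by
    intro L
    unfold CC
    by_cases h : ∀ l, l ≠ a → l ≠ b → I l = L l
    · rw [if_pos h, if_pos h]
      have h2 : (∀ l, l ≠ a → l ≠ b → L l = J l) ↔ (∀ l, l ≠ a → l ≠ b → I l = J l) :=
        forall_congr' fun l => forall_congr' fun ha => forall_congr' fun hb => by rw [h l ha hb]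
      simp only [h2]
      ring
    · rw [if_neg h, if_neg h]
      ring
  rw [Finset.sum_congr rfl fun L _ => h1 L, sum_agree hab, nn, Finset.sum_mul]
  refine Finset.sum_congr rfl fun x _ => ?_
  rw [Finset.sum_mul]
  refine Finset.sum_congr rfl fun y _ => ?_
  rw [Function.update_self, Function.update_of_ne hab, Function.update_self]

theorem jqf_map (x : ι) : algebraMap ℚ K (jqf Fr x) = jj K Fr.sg x := by
  unfold jqf jj
  split_ifs
  · rw [map_one]
  · rw [map_neg, map_one]

theorem w2_map (q : Q) (x y : ι) :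
    algebraMap ℚ K (w2 Fr q x y) = JQ Fr.cls Fr.inv (jj K Fr.sg) q x y := by
  unfold w2 JQ JJ
  split_ifs
  · exact jqf_map Fr x
  · exact map_zero _
  · exact map_zero _

/-- The values on the basis. -/
def ev (φ : MultilinearMap K (fun _ : κ => V) M) : (κ → ι) → M := fun I => φ (fun k => Fr.e (I k))

theorem ev_inj {φ ψ : MultilinearMap K (fun _ : κ => V) M} (h : ev Fr φ = ev Fr ψ) : φ = ψ :=
  Basis.ext_multilinear (fun _ => Fr.e) fun I => congrFun h I

theorem ev_step (q : Q) {a b : κ} (hab : a ≠ b) (φ : MultilinearMap K (fun _ : κ => V) M) :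
    ev Fr (mulM hab (Fr.om q) (contr Fr q a b φ)) = act K (CC Fr q a b) (ev Fr φ) := by
  funext I
  unfold act
  have h1 : ∀ J, algebraMap ℚ K (CC Fr q a b I J) • ev Fr φ J =
      if ∀ l, l ≠ a → l ≠ b → I l = J l then
        (algebraMap ℚ K (w2 Fr q (I a) (I b)) * algebraMap ℚ K (w2 Fr q (J a) (J b))) • ev Fr φ J
      else 0 := by
    intro J
    unfold CC
    split_ifs
    · rw [mul_one, map_mul]
    · rw [mul_zero, map_zero, zero_smul]
  rw [Finset.sum_congr rfl fun J _ => h1 J, sum_agree hab]
  change Fr.om q (Fr.e (I a)) (Fr.e (I b)) • contr Fr q a b φ (res a b fun k => Fr.e (I k)) = _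
  rw [contr_apply Fr q hab, Fr.om_e, ← w2_map, Finset.smul_sum]
  refine Finset.sum_congr rfl fun x _ => ?_
  have h2 : ∀ y, ev Fr φ (Function.update (Function.update I a x) b y) =
      bil hab φ (ext0 a b (res a b fun k => Fr.e (I k))) (Fr.e x) (Fr.e y) := by
    intro y
    rw [bil_apply]
    unfold ev
    congr 1
    funext l
    by_cases hb : l = b
    · subst hb
      rw [Function.update_self, Function.update_self]
    · rw [Function.update_of_ne hb, Function.update_of_ne hb]
      by_cases ha : l = a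
      · subst ha
        rw [Function.update_self, Function.update_self]
      · rw [Function.update_of_ne ha, Function.update_of_ne ha]
        unfold ext0
        rw [dif_pos ⟨ha, hb⟩]
        rfl
  simp only [h2, Function.update_self, Function.update_of_ne hab]
  rw [Finset.sum_eq_single (Fr.inv x)]
  · rw [mul_smul]
    congr 2
    rw [w2_map]
    unfold wt JQ JJ
    rw [if_pos rfl]
  · intro y _ hy
    have h3 : w2 Fr q x y = 0 := by
      unfold w2
      rw [if_neg hy]
      split_ifs <;> rfl
    rw [h3, map_zero, mul_zero, zero_smul]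
  · intro h
    exact absurd (Finset.mem_univ _) h

/-- The sum of the matrices. -/
def DM (κ : Type) [Fintype κ] [DecidableEq κ] : Matrix (κ → ι) (κ → ι) ℚ :=
  ∑ j : Q × {p : κ × κ // p.1 ≠ p.2}, CC Fr j.1 j.2.1.1 j.2.1.2

theorem ev_DD' (φ : MultilinearMap K (fun _ : κ => V) M) :
    ev Fr (DD' Fr φ) = act K (DM Fr κ) (ev Fr φ) := by
  unfold DM
  rw [act_sum, DD'_apply]
  have h1 : ∀ (s : Finset (Q × {p : κ × κ // p.1 ≠ p.2}))
      (f : Q × {p : κ × κ // p.1 ≠ p.2} → MultilinearMap K (fun _ : κ => V) M),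
      ev Fr (∑ j ∈ s, f j) = ∑ j ∈ s, ev Fr (f j) := by
    intro s f
    funext I
    rw [Finset.sum_apply]
    unfold ev
    rw [MultilinearMap.sum_apply]
  rw [h1]
  exact Finset.sum_congr rfl fun j _ => ev_step Fr j.1 j.2.2 φ

/-- Matrices in the algebra generated by the sum correspond to operators on the multilinear maps
which preserve all subspaces preserved by `DD'`. -/
theorem exists_op' (M : Type*) [AddCommGroup M] [Module K M] {A : Matrix (κ → ι) (κ → ι) ℚ}
    (hA : A ∈ Algebra.adjoin ℚ {DM Fr κ}) :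
    ∃ T : Module.End K (MultilinearMap K (fun _ : κ => V) M),
      (∀ φ, ev Fr (T φ) = act K A (ev Fr φ)) ∧
      ∀ S : Submodule K (MultilinearMap K (fun _ : κ => V) M), (∀ φ ∈ S, DD' Fr φ ∈ S) →
        ∀ φ ∈ S, T φ ∈ S := by
  induction hA using Algebra.adjoin_induction with
  | mem A hA =>
    rw [Set.mem_singleton_iff] at hA
    subst hA
    exact ⟨DD' Fr, ev_DD' Fr, fun S hS => hS⟩
  | algebraMap c =>
    refine ⟨(algebraMap ℚ K c) • 1, fun φ => ?_, fun S hS φ hφ => S.smul_mem _ hφ⟩
    rw [act_scalar]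
    rfl
  | add A B _ _ hA hB =>
    obtain ⟨T, hT, hT'⟩ := hA
    obtain ⟨T₁, hT₁, hT₁'⟩ := hB
    refine ⟨T + T₁, fun φ => ?_, fun S hS φ hφ => S.add_mem (hT' S hS φ hφ) (hT₁' S hS φ hφ)⟩
    rw [act_add, ← hT, ← hT₁]
    rfl
  | mul A B _ _ hA hB =>
    obtain ⟨T, hT, hT'⟩ := hA
    obtain ⟨T₁, hT₁, hT₁'⟩ := hB
    refine ⟨T * T₁, fun φ => ?_, fun S hS φ hφ => hT' S hS _ (hT₁' S hS φ hφ)⟩
    rw [act_mul, ← hT₁, ← hT]
    rfl

/-- Forms in the ideal are fixed by the matrix `D E`. -/
theorem ev_ideal {E : Matrix (κ → ι) (κ → ι) ℚ}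
    (hE : ∀ j : Q × {p : κ × κ // p.1 ≠ p.2}, DM Fr κ * E * CC Fr j.1 j.2.1.1 j.2.1.2 =
      CC Fr j.1 j.2.1.1 j.2.1.2) {f : MultilinearMap K (fun _ : κ => V) K}
    (hf : f ∈ IJ ρ χ 1 κ) : act K (DM Fr κ * E) (ev Fr f) = ev Fr f := by
  change f ∈ Submodule.span K _ at hf
  induction hf using Submodule.span_induction with
  | mem F hF =>
    obtain ⟨a, b, hab, B, c, hB, -, rfl⟩ := hF
    obtain ⟨d, hd⟩ := Fr.tate2 hB
    let G : (κ → ι) → K := fun I => c (res a b fun k => Fr.e (I k))
    have hG : ∀ I x y, G (Function.update (Function.update I a x) b y) = G I := by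
      intro I x y
      change c _ = c _
      congr 1
      funext l
      change Fr.e (Function.update (Function.update I a x) b y l.1) = Fr.e (I l.1)
      rw [Function.update_of_ne l.2.2, Function.update_of_ne l.2.1]
    let Fq : Q → (κ → ι) → K := fun q I => algebraMap ℚ K (w2 Fr q (I a) (I b)) * G I
    have h1 : ev Fr (mulB hab B c) = ∑ q, d q • Fq q := by
      funext I
      rw [Finset.sum_apply]
      change B (Fr.e (I a)) (Fr.e (I b)) * G I = ∑ q, d q * (algebraMap ℚ K (w2 Fr q (I a) (I b)) * G I)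
      rw [Finset.sum_eq_single (Fr.cls (I a)), hd, w2_map]
      · unfold JQ
        rw [if_pos rfl]
        ring
      · intro q _ hq
        rw [w2_map]
        unfold JQ
        rw [if_neg (Ne.symm hq)]
        ring
      · intro h
        exact absurd (Finset.mem_univ _) h
    have h2 : ∀ q, act K (CC Fr q a b) (Fq q) = algebraMap ℚ K (nn Fr q) • Fq q := by
      intro q
      funext I
      rw [Pi.smul_apply, smul_eq_mul]
      unfold act
      have h3 : ∀ J, algebraMap ℚ K (CC Fr q a b I J) • Fq q J =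
          if ∀ l, l ≠ a → l ≠ b → I l = J l then
            algebraMap ℚ K (w2 Fr q (I a) (I b)) * (algebraMap ℚ K (w2 Fr q (J a) (J b)) *
              algebraMap ℚ K (w2 Fr q (J a) (J b))) * G J
          else 0 := by
        intro J
        unfold CC
        rw [smul_eq_mul]
        simp only [Fq]
        split_ifs
        · rw [mul_one, map_mul]
          ring
        · rw [mul_zero, map_zero, zero_mul]
      rw [Finset.sum_congr rfl fun J _ => h3 J, sum_agree hab]
      simp only [hG, Function.update_self, Function.update_of_ne hab]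
      unfold nn
      rw [map_sum, Finset.sum_mul]
      refine Finset.sum_congr rfl fun x _ => ?_
      rw [map_sum, Finset.sum_mul]
      refine Finset.sum_congr rfl fun y _ => ?_
      rw [map_mul]
      simp only [Fq]
      ring
    have h3 : ∀ q, act K (DM Fr κ * E) (Fq q) = Fq q := by
      intro q
      by_cases hn : nn Fr q = 0
      · have h4 : Fq q = 0 := by
          funext I
          have h5 := (Finset.sum_eq_zero_iff_of_nonneg (fun x _ => Finset.sum_nonneg
            fun y _ => mul_self_nonneg _)).1 hn (I a) (Finset.mem_univ _)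
          have h6 := (Finset.sum_eq_zero_iff_of_nonneg (fun y _ => mul_self_nonneg _)).1 h5 (I b)
            (Finset.mem_univ _)
          simp only [Fq]
          rw [mul_self_eq_zero.1 h6, map_zero, zero_mul]
          rfl
        rw [h4, act_zeroF]
      · have h4 : algebraMap ℚ K (nn Fr q) ≠ 0 := by
          rw [Ne, map_eq_zero]
          exact hn
        have h5 : algebraMap ℚ K (nn Fr q) • act K (DM Fr κ * E) (Fq q) =
            algebraMap ℚ K (nn Fr q) • Fq q := by
          rw [← act_smul, ← h2, ← act_mul, hE (q, ⟨(a, b), hab⟩)]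
        have h6 := congrArg (fun F => (algebraMap ℚ K (nn Fr q))⁻¹ • F) h5
        rwa [smul_smul, smul_smul, inv_mul_cancel₀ h4, one_smul, one_smul] at h6
    have hact : ∀ (s : Finset Q) (f : Q → (κ → ι) → K),
        act K (DM Fr κ * E) (∑ q ∈ s, f q) = ∑ q ∈ s, act K (DM Fr κ * E) (f q) := by
      intro s f
      induction s using Finset.induction_on with
      | empty => rw [Finset.sum_empty, Finset.sum_empty, act_zeroF]
      | insert a s ha ih => rw [Finset.sum_insert ha, Finset.sum_insert ha, act_addF, ih]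
    rw [h1, hact]
    refine Finset.sum_congr rfl fun q _ => ?_
    rw [act_smul, h3]
  | zero => exact act_zeroF _
  | add F G _ _ hF hG =>
    have h1 : ev Fr (F + G) = ev Fr F + ev Fr G := rfl
    rw [h1, act_addF, hF, hG]
  | smul c F _ hF =>
    have h1 : ev Fr (c • F) = c • ev Fr F := rfl
    rw [h1, act_smul, hF]

/-- **Equivariant coefficients.** -/
theorem decomp {Δ : Subgroup Γ} {m : ℕ} {φ : MultilinearMap K (fun _ : κ => V) M}
    (hφ : φ ∈ TwS ρ τ χ Δ m κ)
    (hl : ∀ l : M →ₗ[K] K, l.compMultilinearMap φ ∈ IJ ρ χ 1 κ) :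
    ∃ ψ : ∀ j : Q × {p : κ × κ // p.1 ≠ p.2},
        MultilinearMap K (fun _ : {l : κ // l ≠ j.2.1.1 ∧ l ≠ j.2.1.2} => V) M,
      (∀ j, ψ j ∈ TwS ρ τ χ Δ (m + 1) {l : κ // l ≠ j.2.1.1 ∧ l ≠ j.2.1.2}) ∧
      φ = ∑ j, mulM j.2.2 (Fr.om j.1) (ψ j) := by
  obtain ⟨E, hE, hE'⟩ := exists_inv
    (fun j : Q × {p : κ × κ // p.1 ≠ p.2} => CC Fr j.1 j.2.1.1 j.2.1.2)
    (fun j => nn Fr j.1) (fun j => CC_symm Fr _ _ _) (fun j => CC_sq Fr _ j.2.2)
    (fun j => nn_nonneg Fr _)
  change E ∈ Algebra.adjoin ℚ {DM Fr κ} at hE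
  obtain ⟨T, hT, hT'⟩ := exists_op' (ρ := ρ) Fr M hE
  have h1 : DD' Fr (T φ) = φ := by
    apply ev_inj Fr
    rw [ev_DD', hT, ← act_mul]
    funext I
    rw [← sub_eq_zero, ← Module.forall_dual_apply_eq_zero_iff K]
    intro l
    rw [map_sub, act_comp, sub_eq_zero]
    have h2 := ev_ideal Fr hE' (hl l)
    exact congrFun h2 I
  refine ⟨fun j => contr Fr j.1 j.2.1.1 j.2.1.2 (T φ), fun j => ?_, ?_⟩
  · exact contr_mem Fr j.1 j.2.2 (hT' _ (fun φ hφ => DD'_mem Fr hφ) φ hφ)
  · rw [← DD'_apply, h1]

end

end Pool.Agent.K6.H94.CO
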