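import Mathlib
import Pool.Agent.K6.H94.CO.Matr

/-!
# Equivariant multilinear maps are combinations of products of bilinear forms and of equivariant
multilinear maps of low degree
-/

set_option linter.unusedSectionVars false

namespace Pool.Agent.K6.H94.CO

open Module Pool.Agent.W529.Ta Pool.Agent.H204R3.SP Pool.Agent.H204R3.GP Pool.Agent.K6.H94.BI
  Pool.Agent.Y128.GT Pool.Agent.TH131.GHC

theorem exists_equiv {κ : Type} [DecidableEq κ] {a b : κ} (hab : a ≠ b) {k c : ℕ}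
    (f : (Fin k × Fin 2) ⊕ Fin c ≃ {l : κ // l ≠ a ∧ l ≠ b}) :
    ∃ f' : (Fin (k + 1) × Fin 2) ⊕ Fin c ≃ κ, f' (Sum.inl (0, 0)) = a ∧ f' (Sum.inl (0, 1)) = b ∧
      (∀ l ε, f' (Sum.inl (Fin.succ l, ε)) = (f (Sum.inl (l, ε))).1) ∧
      ∀ j, f' (Sum.inr j) = (f (Sum.inr j)).1 := by
  let F : (Fin (k + 1) × Fin 2) ⊕ Fin c → κ := Sum.elim
    (fun p => Fin.cases (motive := fun _ => κ) (if p.2 = 0 then a else b)
      (fun l => (f (Sum.inl (l, p.2))).1) p.1) (fun j => (f (Sum.inr j)).1)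
  have h0 : F (Sum.inl (0, 0)) = a := rfl
  have h1 : F (Sum.inl (0, 1)) = b := rfl
  have h2 : ∀ l ε, F (Sum.inl (Fin.succ l, ε)) = (f (Sum.inl (l, ε))).1 := fun _ _ => rfl
  have h3 : ∀ j, F (Sum.inr j) = (f (Sum.inr j)).1 := fun _ => rfl
  let G : κ → (Fin (k + 1) × Fin 2) ⊕ Fin c := fun x =>
    if ha : x = a then Sum.inl (0, 0) else if hb : x = b then Sum.inl (0, 1) else
      Sum.elim (fun p => Sum.inl (Fin.succ p.1, p.2)) Sum.inr (f.symm ⟨x, ha, hb⟩)
  have hGa : G a = Sum.inl (0, 0) := dif_pos rfl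
  have hGb : G b = Sum.inl (0, 1) := by
    simp only [G]
    rw [dif_neg hab.symm]
    simp
  have hG : ∀ x : {l : κ // l ≠ a ∧ l ≠ b}, G x.1 =
      Sum.elim (fun p => Sum.inl (Fin.succ p.1, p.2)) Sum.inr (f.symm x) := by
    intro x
    simp only [G]
    rw [dif_neg x.2.1, dif_neg x.2.2]
  refine ⟨{ toFun := F, invFun := G, left_inv := ?_, right_inv := ?_ }, h0, h1, h2, h3⟩
  · rintro (⟨l, ε⟩ | j)
    · refine Fin.cases ?_ (fun l => ?_) l
      · fin_cases ε
        · exact hGa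
        · exact hGb
      · rw [h2, hG, Equiv.symm_apply_apply]
        rfl
    · rw [h3, hG, Equiv.symm_apply_apply]
      rfl
  · intro x
    by_cases ha : x = a
    · subst ha
      rw [hGa, h0]
    by_cases hb : x = b
    · subst hb
      rw [hGb, h1]
    have h4 := hG ⟨x, ha, hb⟩
    simp only at h4
    rw [h4]
    rcases h5 : f.symm ⟨x, ha, hb⟩ with ⟨l, ε⟩ | j
    · change F (Sum.inl (Fin.succ l, ε)) = x
      rw [h2, ← h5, Equiv.apply_symm_apply]
    · change F (Sum.inr j) = x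
      rw [h3, ← h5, Equiv.apply_symm_apply]

variable {K : Type} [Field K] [CharZero K] {V : Type} [AddCommGroup V] [Module K V]
  [FiniteDimensional K V] {M : Type*} [AddCommGroup M] [Module K M] {Γ : Type} [Group Γ]
  {ρ : Representation K Γ V} {τ : Representation K Γ M} {χ : Γ →* K}
  {ι : Type} [Fintype ι] [DecidableEq ι]

variable (ρ τ χ) in
/-- The span of the products of bilinear Tate forms and of an equivariant multilinear map in less than
`n` variables. -/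
def PM (n m : ℕ) (κ : Type) : Submodule K (MultilinearMap K (fun _ : κ => V) M) :=
  Submodule.span K {g | ∃ (k c : ℕ) (f : (Fin k × Fin 2) ⊕ Fin c ≃ κ)
    (B : Fin k → V →ₗ[K] V →ₗ[K] K) (ψ : MultilinearMap K (fun _ : Fin c => V) M), c < n ∧
    (∀ l, IsTate2 ρ χ (B l)) ∧ IsTw ρ τ χ (m + k) ψ ∧
    ∀ v, g v = (∏ l, B l (v (f (Sum.inl (l, 0)))) (v (f (Sum.inl (l, 1))))) •
      ψ (fun j => v (f (Sum.inr j)))}

theorem mulM_PM {n m : ℕ} {κ : Type} [Fintype κ] [DecidableEq κ] {a b : κ} (hab : a ≠ b)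
    {B : V →ₗ[K] V →ₗ[K] K} (hB : IsTate2 ρ χ B)
    {g : MultilinearMap K (fun _ : {l : κ // l ≠ a ∧ l ≠ b} => V) M}
    (hg : g ∈ PM ρ τ χ n (m + 1) {l : κ // l ≠ a ∧ l ≠ b}) : mulM hab B g ∈ PM ρ τ χ n m κ := by
  unfold PM at hg
  induction hg using Submodule.span_induction with
  | mem g hg =>
    obtain ⟨k, c, f, B', ψ, hc, hB', hψ, hg⟩ := hg
    obtain ⟨f', h0, h1, h2, h3⟩ := exists_equiv hab f
    refine Submodule.subset_span ⟨k + 1, c, f', Fin.cons B B', ψ, hc, ?_, ?_, fun v => ?_⟩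
    · intro l
      refine Fin.cases ?_ (fun l => ?_) l
      · exact hB
      · exact hB' l
    · have h4 : m + (k + 1) = m + 1 + k := by omega
      rw [h4]
      exact hψ
    · rw [mulM_apply, hg, Fin.prod_univ_succ, Fin.cons_zero, h0, h1, smul_smul]
      simp only [Fin.cons_succ, h2, h3]
      rfl
  | zero => rw [map_zero]; exact Submodule.zero_mem _
  | add g h _ _ hg hh => rw [map_add]; exact Submodule.add_mem _ hg hh
  | smul t g _ hg => rw [map_smul]; exact Submodule.smul_mem _ t hg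

theorem mem_PM (ω : V →ₗ[K] V →ₗ[K] K)
    (halt : ∀ v, ω v v = 0) (hnd : ∀ u, (∀ v, ω v u = 0) → u = 0)
    (hωρ : ∀ s u v, ω (ρ s u) (ρ s v) = χ s * ω u v) (W : ι → Submodule K V)
    (hspan : ⨆ i, W i = ⊤) (horth : ∀ i j, i ≠ j → ∀ u ∈ W i, ∀ v ∈ W j, ω u v = 0)
    (hstab : ∀ i s, ∀ v ∈ W i, ρ s v ∈ W i) (hlarge : IsLarge ρ ω W) {n : ℕ}
    (hco : HasCocharacter ρ τ n)
    {J : Type} [Fintype J] [DecidableEq J] (Fr : Frame ρ χ J ι) (c : ℕ) :
    ∀ (κ : Type) [Fintype κ] [DecidableEq κ], Fintype.card κ = c → ∀ (m : ℕ)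
      (φ : MultilinearMap K (fun _ : κ => V) M), IsTw ρ τ χ m φ → φ ∈ PM ρ τ χ n m κ := by
  induction c using Nat.strong_induction_on with
  | _ c ih =>
    intro κ _ _ hκ m φ hφ
    by_cases hc : n ≤ c
    · have hl := mem_ideal ω halt hnd hωρ W hspan horth hstab hlarge hco φ hφ (hκ ▸ hc)
      obtain ⟨Δ, hΔ, hφ'⟩ := hφ
      obtain ⟨ψ, hψ, hψ'⟩ := decomp (τ := τ) Fr (Δ := Δ) (m := m) (φ := φ) hφ' hl
      rw [hψ']
      refine Submodule.sum_mem _ fun j _ => ?_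
      refine mulM_PM j.2.2 (Fr.om_tate j.1) ?_
      have hlt : Fintype.card {l : κ // l ≠ j.2.1.1 ∧ l ≠ j.2.1.2} < c := by
        rw [← hκ]
        exact Fintype.card_subtype_lt (x := j.2.1.1) (fun h => h.1 rfl)
      exact ih _ hlt _ rfl (m + 1) (ψ j) ⟨Δ, hΔ, hψ j⟩
    · refine Submodule.subset_span ⟨0, Fintype.card κ,
        (Equiv.emptySum (Fin 0 × Fin 2) (Fin (Fintype.card κ))).trans (Fintype.equivFin κ).symm,
        fun l => l.elim0, φ.domDomCongr (Fintype.equivFin κ), by omega, fun l => l.elim0, ?_,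
        fun v => ?_⟩
      · obtain ⟨Δ, hΔ, hφ⟩ := hφ
        exact ⟨Δ, hΔ, fun s hs v => hφ s hs _⟩
      · rw [Finset.univ_eq_empty, Finset.prod_empty, one_smul]
        change φ v = φ (fun i => v ((Fintype.equivFin κ).symm ((Fintype.equivFin κ) i)))
        simp only [Equiv.symm_apply_apply]

end Pool.Agent.K6.H94.CO
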