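import Mathlib
import Pool.Agent.K6.H94.CO.Ind

/-!
# Alternating equivariant maps: from multilinear components to alternating products
-/

set_option linter.unusedSectionVars false

namespace Pool.Agent.K6.H94.CO

open Module Equiv Pool.Agent.W529.Ta Pool.Agent.H204R3.SP Pool.Agent.H204R3.GP
  Pool.Agent.H204R3.CM Pool.Agent.K6.H94.BI
open Pool.Agent.Y137.MV (IsTateForm)

/-- The alternation of a product. -/
theorem alt_generator {K : Type*} [Field K] {W : Type*} {M : Type*} [AddCommGroup M] [Module K M]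
    {N k a : ℕ} (f : (Fin k × Fin 2) ⊕ Fin a ≃ Fin N) (b : Fin k → W → W → K)
    (ψ : (Fin a → W) → M) (v : Fin N → W) :
    ∑ σ : Perm (Fin N), ((Perm.sign σ : ℤ) : K) •
      (∏ l, ∑ ε : Perm (Fin 2), ((Perm.sign ε : ℤ) : K) *
        b l (v (σ (f (Sum.inl (l, ε 0))))) (v (σ (f (Sum.inl (l, ε 1)))))) •
      ∑ π : Perm (Fin a), ((Perm.sign π : ℤ) : K) • ψ (fun j => v (σ (f (Sum.inr (π j))))) =
    ((Fintype.card ((Fin k → Perm (Fin 2)) × Perm (Fin a)) : ℕ) : K) •
      ∑ σ : Perm (Fin N), ((Perm.sign σ : ℤ) : K) •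
        (∏ l, b l (v (σ (f (Sum.inl (l, 0))))) (v (σ (f (Sum.inl (l, 1)))))) •
          ψ (fun j => v (σ (f (Sum.inr j)))) := by
  classical
  -- the permutation attached to an element of the group
  let P : (Fin k → Perm (Fin 2)) × Perm (Fin a) → Perm (Fin N) := fun δ =>
    f.permCongr (Equiv.Perm.sumCongr (Equiv.prodCongrRight δ.1) δ.2)
  have hP1 : ∀ δ l x, P δ (f (Sum.inl (l, x))) = f (Sum.inl (l, δ.1 l x)) := by
    intro δ l x
    simp only [P, Equiv.permCongr_apply, Equiv.symm_apply_apply]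
    rfl
  have hP2 : ∀ δ j, P δ (f (Sum.inr j)) = f (Sum.inr (δ.2 j)) := by
    intro δ j
    simp only [P, Equiv.permCongr_apply, Equiv.symm_apply_apply]
    rfl
  have hPs : ∀ δ, Perm.sign (P δ) = (∏ l, Perm.sign (δ.1 l)) * Perm.sign δ.2 := by
    intro δ
    simp only [P]
    rw [Equiv.Perm.sign_permCongr, Equiv.Perm.sign_sumCongr, Equiv.Perm.sign_prodCongrRight]
  let h : Perm (Fin N) → M := fun σ =>
    (∏ l, b l (v (σ (f (Sum.inl (l, 0))))) (v (σ (f (Sum.inl (l, 1)))))) •
      ψ (fun j => v (σ (f (Sum.inr j))))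
  have e1 : ∀ σ : Perm (Fin N), ((Perm.sign σ : ℤ) : K) •
      (∏ l, ∑ ε : Perm (Fin 2), ((Perm.sign ε : ℤ) : K) *
        b l (v (σ (f (Sum.inl (l, ε 0))))) (v (σ (f (Sum.inl (l, ε 1)))))) •
      ∑ π : Perm (Fin a), ((Perm.sign π : ℤ) : K) • ψ (fun j => v (σ (f (Sum.inr (π j))))) =
      ∑ δ : (Fin k → Perm (Fin 2)) × Perm (Fin a),
        ((Perm.sign (σ * P δ) : ℤ) : K) • h (σ * P δ) := by
    intro σ
    rw [Finset.prod_univ_sum, Fintype.piFinset_univ, Finset.sum_smul, Finset.smul_sum,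
      Fintype.sum_prod_type]
    refine Finset.sum_congr rfl fun p _ => ?_
    rw [Finset.smul_sum, Finset.smul_sum]
    refine Finset.sum_congr rfl fun π _ => ?_
    rw [map_mul, hPs]
    simp only [h, Perm.mul_apply, hP1, hP2]
    rw [Finset.prod_mul_distrib, smul_smul, smul_smul, smul_smul]
    congr 1
    push_cast
    ring
  rw [Finset.sum_congr rfl fun σ _ => e1 σ, Finset.sum_comm]
  have e2 : ∀ δ, ∑ σ : Perm (Fin N), ((Perm.sign (σ * P δ) : ℤ) : K) • h (σ * P δ) =
      ∑ σ : Perm (Fin N), ((Perm.sign σ : ℤ) : K) • h σ := by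
    intro δ
    exact Fintype.sum_equiv (Equiv.mulRight (P δ)) _ _ fun σ => rfl
  rw [Finset.sum_congr rfl fun δ _ => e2 δ, Finset.sum_const, Finset.card_univ,
    ← Nat.cast_smul_eq_nsmul K]

variable {K : Type} [Field K] [CharZero K] {V : Type} [AddCommGroup V] [Module K V]
  [FiniteDimensional K V] {M : Type*} [AddCommGroup M] [Module K M] {Γ : Type} [Group Γ]
  {ρ : Representation K Γ V} {τ : Representation K Γ M} {χ : Γ →* K}

/-- The alternation of a function. -/
def altM (K : Type*) [Field K] {W : Type*} {M : Type*} [AddCommGroup M] [Module K M] {N : ℕ} :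
    ((Fin N → W) → M) →ₗ[K] ((Fin N → W) → M) where
  toFun h v := ∑ σ : Perm (Fin N), ((Perm.sign σ : ℤ) : K) • h (fun i => v (σ i))
  map_add' h h' := by
    funext v
    simp only [Pi.add_apply, smul_add, Finset.sum_add_distrib]
  map_smul' c h := by
    funext v
    simp only [Pi.smul_apply, RingHom.id_apply, Finset.smul_sum]
    exact Finset.sum_congr rfl fun σ _ => smul_comm _ _ _

theorem altM_alt {W : Type*} [AddCommGroup W] [Module K W] {N : ℕ} (g : W [⋀^Fin N]→ₗ[K] M) :
    altM K (fun v => g v) = ((N.factorial : ℕ) : K) • (fun v => g v) := by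
  funext v
  change ∑ σ : Perm (Fin N), ((Perm.sign σ : ℤ) : K) • g (fun i => v (σ i)) = _
  have h1 : ∀ σ : Perm (Fin N), ((Perm.sign σ : ℤ) : K) • g (fun i => v (σ i)) = g v := by
    intro σ
    have h2 := g.map_perm v σ
    have h3 : (fun i => v (σ i)) = v ∘ σ := rfl
    rw [h3, h2, Units.smul_def, ← Int.cast_smul_eq_zsmul K, smul_smul, ← Int.cast_mul,
      ← Units.val_mul, Int.units_mul_self, Units.val_one, Int.cast_one, one_smul]
  rw [Finset.sum_congr rfl fun σ _ => h1 σ, Finset.sum_const, Finset.card_univ,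
    Fintype.card_perm, Fintype.card_fin, ← Nat.cast_smul_eq_nsmul K]
  rfl

/-- The product of alternating forms of degree two and of an alternating map, as an alternating
map. -/
theorem exists_prod {r N k a : ℕ} (f : (Fin k × Fin 2) ⊕ Fin a ≃ Fin N)
    (B : Fin k → (Fin r → V) [⋀^Fin 2]→ₗ[K] K) (ψ : (Fin a → V) [⋀^Fin a]→ₗ[K] M)
    (c : Fin a → Fin r) : ∃ G : (Fin r → V) [⋀^Fin N]→ₗ[K] M, ∀ v, G v =
      ∑ σ : Perm (Fin N), ((Perm.sign σ : ℤ) : K) •
      (∏ l, B l ![v (σ (f (Sum.inl (l, 0)))), v (σ (f (Sum.inl (l, 1))))]) •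
        ψ (fun j j' => v (σ (f (Sum.inr j))) (c j')) := by
  let F1 : MultilinearMap K (fun _ : Fin k × Fin 2 => Fin r → V) K :=
    prodMap (fun l => (B l).toMultilinearMap)
  let F2 : MultilinearMap K (fun _ : Fin a => Fin r → V) M :=
    ψ.toMultilinearMap.compLinearMap (fun _ => LinearMap.funLeft K V c)
  let G0 : MultilinearMap K (fun _ : Fin N => Fin r → V) M :=
    ((TensorProduct.lid K M).toLinearMap.compMultilinearMap
      (MultilinearMap.domCoprod F1 F2)).domDomCongr f
  have hG0 : ∀ w : Fin N → Fin r → V, G0 w =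
      (∏ l, B l ![w (f (Sum.inl (l, 0))), w (f (Sum.inl (l, 1)))]) •
        ψ (fun j j' => w (f (Sum.inr j)) (c j')) := by
    intro w
    change TensorProduct.lid K M ((F1 fun i => w (f (Sum.inl i))) ⊗ₜ[K]
      (F2 fun i => w (f (Sum.inr i)))) = _
    rw [TensorProduct.lid_tmul]
    have h1 : (F1 fun i => w (f (Sum.inl i))) =
        ∏ l, B l ![w (f (Sum.inl (l, 0))), w (f (Sum.inl (l, 1)))] := by
      change ∏ l, B l (fun ε => w (f (Sum.inl (l, ε)))) = _
      refine Finset.prod_congr rfl fun l _ => ?_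
      congr 1
      funext ε
      fin_cases ε <;> rfl
    rw [h1]
    rfl
  refine ⟨MultilinearMap.alternatization G0, fun v => ?_⟩
  rw [MultilinearMap.alternatization_apply]
  refine Finset.sum_congr rfl fun σ _ => ?_
  rw [Units.smul_def, ← Int.cast_smul_eq_zsmul K]
  congr 1
  exact hG0 (fun i => v (σ i))

/-- The alternation of a generator. -/
theorem alt_mem {r N n : ℕ} {φ : MultilinearMap K (fun _ : Fin N => V) M}
    (hφ : φ ∈ PM ρ τ χ n 0 (Fin N)) (c : Fin N → Fin r) :
    ∃ g ∈ Products ρ τ χ n r N, altM K (fun v : Fin N → Fin r → V => φ (fun l => v l (c l))) =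
      fun v => g v := by
  classical
  unfold PM at hφ
  induction hφ using Submodule.span_induction with
  | mem φ hφ =>
    obtain ⟨k, a, f, B, ψ, ha, hB, hψ, hφ⟩ := hφ
    let c' : Fin a → Fin r := fun j => c (f (Sum.inr j))
    let b : Fin k → (Fin r → V) → (Fin r → V) → K := fun l x y =>
      B l (x (c (f (Sum.inl (l, 0))))) (y (c (f (Sum.inl (l, 1)))))
    let B' : Fin k → (Fin r → V) [⋀^Fin 2]→ₗ[K] K := fun l =>
      MultilinearMap.alternatization (bil2 ((B l).compl₁₂
        (LinearMap.proj (c (f (Sum.inl (l, 0))))) (LinearMap.proj (c (f (Sum.inl (l, 1)))))))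
    have hB' : ∀ l (w : Fin 2 → Fin r → V), B' l w =
        ∑ ε : Perm (Fin 2), ((Perm.sign ε : ℤ) : K) * b l (w (ε 0)) (w (ε 1)) := by
      intro l w
      simp only [B']
      rw [MultilinearMap.alternatization_apply]
      refine Finset.sum_congr rfl fun ε _ => ?_
      rw [Units.smul_def, zsmul_eq_mul]
      rfl
    let ψ' : (Fin a → V) [⋀^Fin a]→ₗ[K] M := MultilinearMap.alternatization
      (ψ.compLinearMap (fun j => (LinearMap.proj j : (Fin a → V) →ₗ[K] V)))
    have hψ' : ∀ w : Fin a → Fin a → V, ψ' w =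
        ∑ π : Perm (Fin a), ((Perm.sign π : ℤ) : K) • ψ (fun j => w (π j) j) := by
      intro w
      simp only [ψ']
      rw [MultilinearMap.alternatization_apply]
      refine Finset.sum_congr rfl fun π _ => ?_
      rw [Units.smul_def, ← Int.cast_smul_eq_zsmul K]
      rfl
    obtain ⟨G, hG⟩ := exists_prod f B' ψ' c'
    have hGm : G ∈ Products ρ τ χ n r N := by
      refine Submodule.subset_span ⟨k, a, f, B', ψ', c', ha, fun l => ?_, ?_, hG⟩
      · obtain ⟨Δ, hΔ, hB⟩ := hB l
        refine ⟨Δ, hΔ, fun s hs v => ?_⟩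
        rw [hB', hB', Finset.mul_sum]
        refine Finset.sum_congr rfl fun ε _ => ?_
        simp only [b]
        rw [hB s hs]
        ring
      · obtain ⟨Δ, hΔ, hψ⟩ := hψ
        refine ⟨Δ, hΔ, fun s hs v => ?_⟩
        rw [hψ', hψ', map_sum, Finset.smul_sum]
        refine Finset.sum_congr rfl fun π _ => ?_
        rw [map_smul, hψ s hs, zero_add, smul_comm]
    have hcard : ((Fintype.card ((Fin k → Perm (Fin 2)) × Perm (Fin a)) : ℕ) : K) ≠ 0 :=
      Nat.cast_ne_zero.2 Fintype.card_ne_zero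
    refine ⟨((Fintype.card ((Fin k → Perm (Fin 2)) × Perm (Fin a)) : ℕ) : K)⁻¹ • G,
      Submodule.smul_mem _ _ hGm, ?_⟩
    funext v
    change ∑ σ : Perm (Fin N), ((Perm.sign σ : ℤ) : K) • φ (fun l => v (σ l) (c l)) =
      ((Fintype.card ((Fin k → Perm (Fin 2)) × Perm (Fin a)) : ℕ) : K)⁻¹ • G v
    have h1 := alt_generator f b (fun u => ψ (fun j => u j (c' j))) v
    rw [eq_comm, inv_smul_eq_iff₀ hcard, hG]
    have h2 : ∀ σ : Perm (Fin N), φ (fun l => v (σ l) (c l)) =
        (∏ l, b l (v (σ (f (Sum.inl (l, 0))))) (v (σ (f (Sum.inl (l, 1)))))) •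
          ψ (fun j => v (σ (f (Sum.inr j))) (c' j)) := fun σ => hφ _
    simp only [h2]
    rw [← h1]
    refine Finset.sum_congr rfl fun σ _ => ?_
    congr 2
    · refine Finset.prod_congr rfl fun l _ => ?_
      rw [hB']
      refine Finset.sum_congr rfl fun ε _ => ?_
      have h3 : ∀ i : Fin 2, (![v (σ (f (Sum.inl (l, 0)))), v (σ (f (Sum.inl (l, 1))))] :
          Fin 2 → Fin r → V) i = v (σ (f (Sum.inl (l, i)))) := by
        intro i
        fin_cases i <;> rfl
      rw [h3, h3]
    · rw [hψ']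
  | zero =>
    refine ⟨0, Submodule.zero_mem _, ?_⟩
    have h1 : (fun v : Fin N → Fin r → V => (0 : MultilinearMap K (fun _ : Fin N => V) M)
        (fun l => v l (c l))) = 0 := rfl
    rw [h1, map_zero]
    rfl
  | add φ φ' _ _ h h' =>
    obtain ⟨g, hg, hgφ⟩ := h
    obtain ⟨g', hg', hgφ'⟩ := h'
    refine ⟨g + g', Submodule.add_mem _ hg hg', ?_⟩
    have h1 : (fun v : Fin N → Fin r → V => (φ + φ') (fun l => v l (c l))) =
        (fun v => φ (fun l => v l (c l))) + fun v => φ' (fun l => v l (c l)) := rfl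
    rw [h1, map_add, hgφ, hgφ']
    rfl
  | smul t φ _ h =>
    obtain ⟨g, hg, hgφ⟩ := h
    refine ⟨t • g, Submodule.smul_mem _ t hg, ?_⟩
    have h1 : (fun v : Fin N → Fin r → V => (t • φ) (fun l => v l (c l))) =
        t • fun v => φ (fun l => v l (c l)) := rfl
    rw [h1, map_smul, hgφ]
    rfl

/-- An alternating map all of whose components are combinations of products is a combination of
products. -/
theorem mem_Products {r N n : ℕ} (g : (Fin r → V) [⋀^Fin N]→ₗ[K] M)
    (hg : ∀ c : Fin N → Fin r, g.toMultilinearMap.compLinearMap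
      (fun l => LinearMap.single K (fun _ : Fin r => V) (c l)) ∈ PM ρ τ χ n 0 (Fin N)) :
    g ∈ Products ρ τ χ n r N := by
  classical
  choose G hG hG' using fun c : Fin N → Fin r => alt_mem (hg c) c
  have hsum : (fun v => g v) = ∑ c : Fin N → Fin r, (fun v : Fin N → Fin r → V =>
      (g.toMultilinearMap.compLinearMap
        (fun l => LinearMap.single K (fun _ : Fin r => V) (c l))) (fun l => v l (c l))) := by
    funext v
    rw [Finset.sum_apply]
    have h1 : v = fun l => ∑ i, Pi.single i (v l i) := by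
      funext l
      exact (Finset.univ_sum_single (v l)).symm
    conv_lhs => rw [h1]
    exact g.toMultilinearMap.map_sum (fun l i => Pi.single i (v l i))
  have h1 : ((N.factorial : ℕ) : K) • (fun v => g v) = ∑ c, (fun v => G c v) := by
    rw [← altM_alt, hsum, map_sum]
    exact Finset.sum_congr rfl fun c _ => hG' c
  have h2 : ((N.factorial : ℕ) : K) • g = ∑ c, G c := by
    ext v
    have h3 := congrFun h1 v
    rw [Finset.sum_apply] at h3
    rw [AlternatingMap.smul_apply]
    have h4 : (∑ c, G c) v = ∑ c, G c v :=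
      map_sum ({ toFun := fun F => F v
                 map_zero' := rfl
                 map_add' := fun _ _ => rfl } : ((Fin r → V) [⋀^Fin N]→ₗ[K] M) →+ M) G Finset.univ
    rw [h4]
    exact h3
  have h3 : ((N.factorial : ℕ) : K) ≠ 0 := Nat.cast_ne_zero.2 (Nat.factorial_ne_zero _)
  have h4 : g = (((N.factorial : ℕ) : K))⁻¹ • ∑ c, G c := by
    rw [← h2, smul_smul, inv_mul_cancel₀ h3, one_smul]
  rw [h4]
  exact Submodule.smul_mem _ _ (Submodule.sum_mem _ fun c _ => hG c)

end Pool.Agent.K6.H94.CO
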