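import Mathlib
import Pool.Agent.K6.H94.CO.Alt

/-!
# The main theorem on equivariant alternating maps
-/

set_option linter.unusedSectionVars false

namespace Pool.Agent.K6.H94.CO

open Module Pool.Agent.W529.Ta Pool.Agent.H204R3.SP Pool.Agent.H204R3.GP Pool.Agent.K6.H94.BI
  Pool.Agent.Y128.GT

variable {K : Type} [Field K] [CharZero K] {V : Type} [AddCommGroup V] [Module K V]
  [FiniteDimensional K V] {M : Type*} [AddCommGroup M] [Module K M] {Γ : Type} [Group Γ]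
  {ρ : Representation K Γ V} {τ : Representation K Γ M} {χ : Γ →* K}
  {ι : Type} [Fintype ι] [DecidableEq ι]

theorem exists_frame_of_co (ω : V →ₗ[K] V →ₗ[K] K)
    (halt : ∀ v, ω v v = 0) (hnd : ∀ u, (∀ v, ω v u = 0) → u = 0)
    (hωρ : ∀ s u v, ω (ρ s u) (ρ s v) = χ s * ω u v) (W : ι → Submodule K V)
    (hspan : ⨆ i, W i = ⊤) (horth : ∀ i j, i ≠ j → ∀ u ∈ W i, ∀ v ∈ W j, ω u v = 0)
    (hstab : ∀ i s, ∀ v ∈ W i, ρ s v ∈ W i) (hlarge : IsLarge ρ ω W) {n : ℕ}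
    (hco : HasCocharacter ρ τ n) :
    ∃ k : ι → ℕ, Nonempty (Frame ρ χ (Σ i, Fin (k i) × Fin 2) ι) := by
  obtain ⟨N, e, a, P, hN, he, he0, he1, hsum, hidem, hort, hclo⟩ := hco
  have hx := hclo ⊤ inferInstance 2 two_ne_zero
  have hinj : ∀ x y : ℕ, (2 : K) ^ x = 2 ^ y → x = y := by
    intro x y h
    have h1 : (2 : K) ^ (x : ℤ) = 2 ^ (y : ℤ) := by
      rw [zpow_natCast, zpow_natCast]
      exact h
    exact_mod_cast two_zpow_inj h1
  have hc0 : (2 : K) ^ N ≠ 0 := pow_ne_zero _ two_ne_zero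
  have hc1 : (2 : K) ^ N ≠ 1 := by
    intro h
    have := hinj N 0 (by rw [h, pow_zero])
    omega
  have hc2 : ((2 : K) ^ N) ^ 2 ≠ 1 := by
    intro h
    have := hinj (N * 2) 0 (by rw [pow_mul, h, pow_zero])
    omega
  have hg : InClosure K {g : End K V | ∃ s ∈ (⊤ : Subgroup Γ), g = ρ s}
      (1 + ((2 : K) ^ N - 1) • e) :=
    closure_fst hx fun s hs => by
      obtain ⟨s, hs, rfl⟩ := hs
      exact ⟨s, hs, rfl⟩
  obtain ⟨hi1, hi2⟩ := isotropic halt hnd hωρ (fun g hg => by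
    obtain ⟨s, _, rfl⟩ := hg
    exact ⟨s, rfl⟩) he he0 he1 hc0 hc1 hc2 hg
  have heW : ∀ i, ∀ v ∈ W i, e v ∈ W i := by
    intro i v hv
    have h1 := closure_map hg (W i) (W i) (by
      rintro _ ⟨s, _, rfl⟩ v hv
      exact hstab i s v hv) v hv
    change v + ((2 : K) ^ N - 1) • e v ∈ W i at h1
    have h2 := (W i).sub_mem h1 hv
    rw [add_sub_cancel_left] at h2
    have h3 := (W i).smul_mem ((2 : K) ^ N - 1)⁻¹ h2
    rwa [smul_smul, inv_mul_cancel₀ (sub_ne_zero.2 hc1), one_smul] at h3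
  obtain ⟨k, Fr, -⟩ := exists_frame ω halt hnd hωρ W hspan horth hstab hlarge e he hi1 hi2 heW
  exact ⟨k, ⟨Fr⟩⟩

/-- The components of an alternating equivariant map are equivariant. -/
theorem component_tw {N r m : ℕ} {f : (Fin r → V) [⋀^Fin N]→ₗ[K] M} (hf : IsTwisted ρ τ χ m f)
    (c : Fin N → Fin r) : IsTw ρ τ χ m (f.toMultilinearMap.compLinearMap
      (fun l => LinearMap.single K (fun _ : Fin r => V) (c l))) := by
  obtain ⟨Δ, hΔ, hf⟩ := hf
  refine ⟨Δ, hΔ, fun s hs v => ?_⟩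
  have h1 := hf s hs (fun l => Pi.single (c l) (v l))
  change τ s (f (fun l => Pi.single (c l) (v l))) = χ s ^ m • f (fun l => Pi.single (c l) (ρ s (v l)))
  rw [h1]
  congr 2
  funext l i
  by_cases hi : i = c l
  · subst hi
    rw [Pi.single_eq_same, Pi.single_eq_same]
  · rw [Pi.single_eq_of_ne hi, Pi.single_eq_of_ne hi, map_zero]

/-- **Equivariant alternating maps come from low degrees.** -/
theorem comeFromLowDegree (ω : V →ₗ[K] V →ₗ[K] K)
    (halt : ∀ v, ω v v = 0) (hnd : ∀ u, (∀ v, ω v u = 0) → u = 0)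
    (hωρ : ∀ s u v, ω (ρ s u) (ρ s v) = χ s * ω u v) (W : ι → Submodule K V)
    (hspan : ⨆ i, W i = ⊤) (horth : ∀ i j, i ≠ j → ∀ u ∈ W i, ∀ v ∈ W j, ω u v = 0)
    (hstab : ∀ i s, ∀ v ∈ W i, ρ s v ∈ W i) (hlarge : IsLarge ρ ω W) {n : ℕ}
    (hco : HasCocharacter ρ τ n) : ComeFromLowDegree ρ τ χ n := by
  classical
  obtain ⟨k, ⟨Fr⟩⟩ := exists_frame_of_co ω halt hnd hωρ W hspan horth hstab hlarge hco
  intro r N g hg
  refine mem_Products g fun c => ?_
  exact mem_PM ω halt hnd hωρ W hspan horth hstab hlarge hco Fr N (Fin N) (Fintype.card_fin N) 0 _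
    (component_tw hg c)

end Pool.Agent.K6.H94.CO
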